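import Mathlib

section

/-!
# Rational approximability: definitions

* `IsRat`, `RatAppr`: rational sets and rationally approximable sets of the Euclidean plane.
* `Z2`: the subring of `ℚ` of the fractions with odd denominator; `Od`: the units `1 + 2 u` of `Z2`.
* `CE α β t k`: the curve `(α - β k) t² - k (α k - β) = k t`; with `s = t / k`, `a = 2 α`, `b = 2 β`
  it is `a (s - 1/s) - b (t - 1/t) = 2`.
* `th`, `kN`, `tN`: the translation of the curve; `xc`: the `x`-coordinate `α (t/k - k/t)`.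
* `vv a b x = √((x² + a²) ((x - 1)² + b²))`, `i2`, `i1`: the two reflections of the line.
* `Good a b x`: `x` is rational and `x² + a²`, `(x - 1)² + b²` are squares of rational numbers.
-/

noncomputable section

namespace RatApx

/-- the Euclidean plane -/
abbrev E2 : Type := EuclideanSpace ℝ (Fin 2)

/-- Every two points of `X` are at rational distance. -/
def IsRat (X : Set E2) : Prop := ∀ x ∈ X, ∀ y ∈ X, ∃ r : ℚ, dist x y = r

/-- `P` is rationally approximable. -/
def RatAppr (P : Set E2) : Prop :=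
  ∀ ε : ℝ, 0 < ε → ∃ X : Set E2, IsRat X ∧ ∀ p ∈ P, ∃ x ∈ X, dist p x < ε

/-- Fractions with odd denominator. -/
def Z2 (x : ℚ) : Prop := ¬ 2 ∣ x.den

/-- Units of `Z2`. -/
def Od (x : ℚ) : Prop := ∃ u, Z2 u ∧ x = 1 + 2 * u

/-- The curve. -/
def CE {K : Type} [Field K] (α β t k : K) : Prop := (α - β * k) * t ^ 2 - k * (α * k - β) = k * t

/-- `θ` -/
def th {K : Type} [Field K] (α β t k : K) : K := (α * k + β * t ^ 2) / (β * k + α * t ^ 2)

/-- the new `k` -/
def kN {K : Type} [Field K] (α β t k : K) : K := k * th α β t k ^ 2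

/-- the new `t` -/
def tN {K : Type} [Field K] (α β t k : K) : K :=
  t * th α β t k * (β - α * kN α β t k) / (α - β * kN α β t k)

/-- the `x`-coordinate -/
def xc {K : Type} [Field K] (α t k : K) : K := α * (t / k - k / t)

/-- `√((x² + a²) ((x - 1)² + b²))` -/
def vv (a b x : ℝ) : ℝ := Real.sqrt ((x ^ 2 + a ^ 2) * ((x - 1) ^ 2 + b ^ 2))

/-- `x² - x + (a² + b²)/2` -/
def BB (a b x : ℝ) : ℝ := x ^ 2 - x + (a ^ 2 + b ^ 2) / 2

/-- `(a² - b²)/2` -/
def dl (a b : ℝ) : ℝ := (a ^ 2 - b ^ 2) / 2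

/-- the pole of `i1` -/
def xp (a b : ℝ) : ℝ := (a ^ 2 - dl a b ^ 2) / (2 * dl a b)

/-- the first reflection (ellipse) -/
def i2 (a b x : ℝ) : ℝ := 1 - x + dl a b / (BB a b x + vv a b x)

/-- the second reflection (hyperbola) -/
def i1 (a b x : ℝ) : ℝ := 1 - x + dl a b / (BB a b x - vv a b x)

/-- rational abscissas at rational distance from `(0, a)` and `(1, b)` -/
def Good (a b : ℚ) (x : ℚ) : Prop := (∃ y : ℚ, x ^ 2 + a ^ 2 = y ^ 2) ∧ ∃ z : ℚ, (x - 1) ^ 2 + b ^ 2 = z ^ 2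

end RatApx

end
end

section

/-!
# A1 : the ring `Z2` and its units
-/

noncomputable section

namespace RatApx

theorem Z2_iff (x : ℚ) : Z2 x ↔ ∃ (n : ℤ) (d : ℕ), ¬ 2 ∣ d ∧ x = n / d := by
  constructor
  · intro h
    exact ⟨x.num, x.den, h, (Rat.num_div_den x).symm⟩
  · rintro ⟨n, d, hd, rfl⟩ h2
    apply hd
    have h3 : (Rat.divInt n d).den ∣ d := by
      have := Rat.den_dvd n d
      exact_mod_cast this
    have h4 : ((n : ℚ) / (d : ℚ)) = Rat.divInt n d := by
      rw [Rat.divInt_eq_div]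
      simp
    rw [h4] at h2
    exact h2.trans h3

theorem Z2_int (n : ℤ) : Z2 (n : ℚ) := by
  rw [Z2_iff]
  exact ⟨n, 1, by norm_num, by simp⟩

theorem Z2_nat (n : ℕ) : Z2 (n : ℚ) := by
  have := Z2_int n
  exact_mod_cast this

theorem Z2_zero : Z2 0 := by
  have := Z2_int 0
  exact_mod_cast this

theorem Z2_one : Z2 1 := by
  have := Z2_int 1
  exact_mod_cast this

theorem Z2_add {x y : ℚ} (hx : Z2 x) (hy : Z2 y) : Z2 (x + y) := by
  rw [Z2_iff] at *
  obtain ⟨n, d, hd, rfl⟩ := hx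
  obtain ⟨m, e, he, rfl⟩ := hy
  have hd0 : (d : ℚ) ≠ 0 := by
    rintro h
    have : d = 0 := by exact_mod_cast h
    exact hd (by simp [this])
  have he0 : (e : ℚ) ≠ 0 := by
    rintro h
    have : e = 0 := by exact_mod_cast h
    exact he (by simp [this])
  refine ⟨n * e + m * d, d * e, ?_, ?_⟩
  · rw [Nat.prime_two.dvd_mul]
    tauto
  · push_cast
    field_simp

theorem Z2_mul {x y : ℚ} (hx : Z2 x) (hy : Z2 y) : Z2 (x * y) := by
  rw [Z2_iff] at *
  obtain ⟨n, d, hd, rfl⟩ := hx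
  obtain ⟨m, e, he, rfl⟩ := hy
  refine ⟨n * m, d * e, ?_, ?_⟩
  · rw [Nat.prime_two.dvd_mul]
    tauto
  · push_cast
    rw [div_mul_div_comm]

theorem Z2_neg {x : ℚ} (hx : Z2 x) : Z2 (-x) := by
  have := Z2_mul (Z2_int (-1)) hx
  push_cast at this
  rwa [neg_one_mul] at this

theorem Z2_sub {x y : ℚ} (hx : Z2 x) (hy : Z2 y) : Z2 (x - y) := by
  rw [sub_eq_add_neg]
  exact Z2_add hx (Z2_neg hy)

theorem Z2_pow {x : ℚ} (hx : Z2 x) (n : ℕ) : Z2 (x ^ n) := by
  induction n with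
  | zero => simpa using Z2_one
  | succ n ih =>
    rw [pow_succ]
    exact Z2_mul ih hx

theorem Od_Z2 {x : ℚ} (hx : Od x) : Z2 x := by
  obtain ⟨u, hu, rfl⟩ := hx
  exact Z2_add Z2_one (Z2_mul (by exact_mod_cast Z2_int 2) hu)

theorem Od_iff (x : ℚ) : Od x ↔ ∃ (n : ℤ) (d : ℕ), ¬ (2 : ℤ) ∣ n ∧ ¬ 2 ∣ d ∧ x = n / d := by
  constructor
  · rintro ⟨u, hu, rfl⟩
    rw [Z2_iff] at hu
    obtain ⟨n, d, hd, rfl⟩ := hu
    have hd0 : (d : ℚ) ≠ 0 := by
      rintro h
      have : d = 0 := by exact_mod_cast h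
      exact hd (by simp [this])
    refine ⟨d + 2 * n, d, ?_, hd, ?_⟩
    · omega
    · push_cast
      field_simp
  · rintro ⟨n, d, hn, hd, rfl⟩
    have hd0 : (d : ℚ) ≠ 0 := by
      rintro h
      have : d = 0 := by exact_mod_cast h
      exact hd (by simp [this])
    have h2 : ∃ m : ℤ, n = d + 2 * m := ⟨(n - d) / 2, by omega⟩
    obtain ⟨m, hm⟩ := h2
    refine ⟨m / d, (Z2_iff _).2 ⟨m, d, hd, rfl⟩, ?_⟩
    rw [hm]
    push_cast
    field_simp

theorem Od_ne {x : ℚ} (hx : Od x) : x ≠ 0 := by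
  rw [Od_iff] at hx
  obtain ⟨n, d, hn, hd, rfl⟩ := hx
  have hd0 : (d : ℚ) ≠ 0 := by
    rintro h
    have : d = 0 := by exact_mod_cast h
    exact hd (by simp [this])
  have hn0 : (n : ℚ) ≠ 0 := by
    rintro h
    have : n = 0 := by exact_mod_cast h
    exact hn (by simp [this])
  exact div_ne_zero hn0 hd0

theorem Od_one : Od 1 := ⟨0, Z2_zero, by norm_num⟩

theorem Od_mul {x y : ℚ} (hx : Od x) (hy : Od y) : Od (x * y) := by
  obtain ⟨u, hu, rfl⟩ := hx
  obtain ⟨v, hv, rfl⟩ := hy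
  refine ⟨u + v + 2 * (u * v), ?_, by ring⟩
  exact Z2_add (Z2_add hu hv) (Z2_mul (by exact_mod_cast Z2_int 2) (Z2_mul hu hv))

theorem Od_inv {x : ℚ} (hx : Od x) : Od x⁻¹ := by
  have hx0 := Od_ne hx
  rw [Od_iff] at hx ⊢
  obtain ⟨n, d, hn, hd, rfl⟩ := hx
  have hd0 : (d : ℚ) ≠ 0 := by
    rintro h
    have : d = 0 := by exact_mod_cast h
    exact hd (by simp [this])
  have hn0 : (n : ℚ) ≠ 0 := by
    rintro h
    have : n = 0 := by exact_mod_cast h
    exact hn (by simp [this])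
  rcases le_total 0 n with h | h
  · refine ⟨d, n.toNat, by omega, by omega, ?_⟩
    have h3 : ((n.toNat : ℕ) : ℚ) = n := by
      have : ((n.toNat : ℕ) : ℤ) = n := Int.toNat_of_nonneg h
      exact_mod_cast this
    rw [h3, inv_div]
    push_cast
    rfl
  · refine ⟨-d, (-n).toNat, by omega, by omega, ?_⟩
    have h3 : (((-n).toNat : ℕ) : ℚ) = -n := by
      have : (((-n).toNat : ℕ) : ℤ) = -n := Int.toNat_of_nonneg (by omega)
      exact_mod_cast this
    rw [h3, inv_div]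
    push_cast
    rw [neg_div_neg_eq]

theorem Od_div {x y : ℚ} (hx : Od x) (hy : Od y) : Od (x / y) := by
  rw [div_eq_mul_inv]
  exact Od_mul hx (Od_inv hy)

theorem Od_neg {x : ℚ} (hx : Od x) : Od (-x) := by
  obtain ⟨u, hu, rfl⟩ := hx
  exact ⟨-1 - u, Z2_sub (Z2_neg Z2_one) hu, by ring⟩

theorem Od_add_two {x y : ℚ} (hx : Od x) (hy : Z2 y) : Od (x + 2 * y) := by
  obtain ⟨u, hu, rfl⟩ := hx
  exact ⟨u + y, Z2_add hu hy, by ring⟩

theorem Od_sub_Od {x y : ℚ} (hx : Od x) (hy : Od y) : ∃ u, Z2 u ∧ x - y = 2 * u := by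
  obtain ⟨u, hu, rfl⟩ := hx
  obtain ⟨v, hv, rfl⟩ := hy
  exact ⟨u - v, Z2_sub hu hv, by ring⟩

theorem Od_add_Od {x y : ℚ} (hx : Od x) (hy : Od y) : ∃ u, Z2 u ∧ x + y = 2 * u := by
  obtain ⟨u, hu, rfl⟩ := hx
  obtain ⟨v, hv, rfl⟩ := hy
  exact ⟨1 + u + v, Z2_add (Z2_add Z2_one hu) hv, by ring⟩

theorem Z2_half (u : ℚ) (hu : Z2 u) : ∃ w, Z2 w ∧ u * (u + 1) = 2 * w := by
  rw [Z2_iff] at hu
  obtain ⟨n, d, hd, rfl⟩ := hu
  have hd0 : (d : ℚ) ≠ 0 := by
    rintro h
    have : d = 0 := by exact_mod_cast h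
    exact hd (by simp [this])
  have h2 : (2 : ℤ) ∣ n * (n + d) := by
    rcases Int.emod_two_eq_zero_or_one n with h | h
    · exact Dvd.dvd.mul_right (Int.dvd_of_emod_eq_zero h) _
    · exact Dvd.dvd.mul_left (by omega) _
  obtain ⟨m, hm⟩ := h2
  refine ⟨m / (d * d : ℕ), (Z2_iff _).2 ⟨m, d * d, ?_, rfl⟩, ?_⟩
  · rw [Nat.prime_two.dvd_mul]
    tauto
  · have hm' : (n : ℚ) * (n + d) = 2 * m := by exact_mod_cast hm
    push_cast
    field_simp
    linarith

theorem Od_sq {x : ℚ} (hx : Od x) : ∃ u, Z2 u ∧ x ^ 2 = 1 + 8 * u := by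
  obtain ⟨u, hu, rfl⟩ := hx
  obtain ⟨w, hw, h⟩ := Z2_half u hu
  refine ⟨w, hw, ?_⟩
  linear_combination 4 * h

theorem Od_natCast {n : ℕ} (h : ¬ 2 ∣ n) : Od (n : ℚ) :=
  (Od_iff _).2 ⟨n, 1, by omega, by norm_num, by simp⟩

end RatApx

end
end

section

section

/-!
# C1 : density of the orbit of a rotation
-/

noncomputable section

namespace RatApx

private theorem c1_hit {A B z0 r M : ℝ} (hr : 0 < r) (hrB : r < B - A) (h0 : 0 < A + M - z0) :
    ∃ i : ℕ, A < z0 + i * r - M ∧ z0 + i * r - M < B := by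
  refine ⟨⌊(A + M - z0) / r⌋₊ + 1, ?_, ?_⟩
  · have h1 := Nat.lt_floor_add_one ((A + M - z0) / r)
    rw [div_lt_iff₀ hr] at h1
    push_cast
    linarith
  · have h1 := Nat.floor_le (div_pos h0 hr).le
    rw [le_div_iff₀ hr] at h1
    push_cast
    linarith

theorem c1_pigeon {F : ℕ → ℝ} {M η : ℝ} (hpos : ∀ n, 0 < F n) (hlt : ∀ n, F n < M)
    (hη : 0 < η) : ∃ n m : ℕ, n < m ∧ |F m - F n| < η := by
  have hM : 0 < M := (hpos 0).trans (hlt 0)
  obtain ⟨N, hN⟩ := exists_nat_gt (M / η)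
  have hN0 : (0 : ℝ) < N := lt_trans (div_pos hM hη) hN
  have hN1 : M / N < η := by
    rw [div_lt_iff₀ hN0]
    rw [div_lt_iff₀ hη] at hN
    linarith
  have hmap : ∀ i ∈ Finset.range (N + 1), ⌊F i * N / M⌋₊ ∈ Finset.range N := by
    intro i _
    rw [Finset.mem_range, Nat.floor_lt (by have := hpos i; positivity), div_lt_iff₀ hM]
    have := hlt i
    nlinarith
  obtain ⟨i, -, j, -, hij, hf⟩ := Finset.exists_ne_map_eq_of_card_lt_of_maps_to
    (by simp) hmap
  have hclose : |F i - F j| < η := by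
    have a1 := Nat.floor_le (show 0 ≤ F i * N / M by have := hpos i; positivity)
    have a2 := Nat.lt_floor_add_one (F i * N / M)
    have b1 := Nat.floor_le (show 0 ≤ F j * N / M by have := hpos j; positivity)
    have b2 := Nat.lt_floor_add_one (F j * N / M)
    rw [hf] at a1 a2
    have h1 : |F i * N / M - F j * N / M| < 1 := by
      rw [abs_lt]
      constructor <;> linarith
    have h2 : F i * N / M - F j * N / M = (F i - F j) * (N / M) := by ring
    rw [h2, abs_mul, abs_of_pos (div_pos hN0 hM)] at h1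
    have h3 : |F i - F j| < M / N := by
      rw [lt_div_iff₀ hN0]
      rw [← mul_div_assoc, div_lt_one hM] at h1
      exact h1
    linarith
  rcases lt_or_gt_of_ne hij with h | h
  · exact ⟨i, j, h, by rw [abs_sub_comm]; exact hclose⟩
  · exact ⟨j, i, h, hclose⟩

theorem dense_of_rot {F : ℝ → ℝ} {M c : ℝ} (hF : StrictMono F) (hpos : ∀ x, 0 < F x)
    (hlt : ∀ x, F x < M) (x : ℕ → ℝ) (hinj : Function.Injective x)
    (hrot : ∀ n, ∃ j : ℤ, F (x (n + 1)) = F (x n) + c - j * M) (y ε : ℝ) (hε : 0 < ε) :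
    ∃ n, |x n - y| < ε := by
  have hM : 0 < M := (hpos 0).trans (hlt 0)
  have hiter : ∀ i n, ∃ j : ℤ, F (x (n + i)) = F (x n) + i * c - j * M := by
    intro i n
    induction i with
    | zero => exact ⟨0, by simp⟩
    | succ i ih =>
      obtain ⟨j, hj⟩ := ih
      obtain ⟨l, hl⟩ := hrot (n + i)
      refine ⟨j + l, ?_⟩
      rw [← add_assoc, hl, hj]
      push_cast
      ring
  have hAB : F (y - ε) < F (y + ε) := hF (by linarith)
  obtain ⟨n, m, hnm, hclose⟩ := c1_pigeon (F := fun n => F (x n)) (fun n => hpos _)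
    (fun n => hlt _) (sub_pos.2 hAB)
  have hne : F (x m) - F (x n) ≠ 0 := by
    intro h
    have h1 := hF.injective (sub_eq_zero.1 h)
    exact absurd (hinj h1) hnm.ne'
  obtain ⟨p, rfl⟩ : ∃ p, m = n + p := ⟨m - n, by omega⟩
  obtain ⟨j0, hj0⟩ := hiter p n
  set r := F (x (n + p)) - F (x n) with hr
  have hpr : (p : ℝ) * c = r + j0 * M := by
    rw [hr, hj0]
    ring
  -- multiples of p
  have hmul : ∀ i : ℕ, ∃ j : ℤ, F (x (i * p)) = F (x 0) + i * r - j * M := by
    intro i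
    obtain ⟨j, hj⟩ := hiter (i * p) 0
    refine ⟨j - i * j0, ?_⟩
    rw [zero_add] at hj
    rw [hj]
    push_cast
    have : (i : ℝ) * (p : ℝ) * c = i * (r + j0 * M) := by rw [← hpr]; ring
    rw [this]
    ring
  -- it is enough to hit the interval up to multiples of `M`
  have hfin : ∀ (i : ℕ) (l : ℤ), F (y - ε) < F (x 0) + i * r - l * M →
      F (x 0) + i * r - l * M < F (y + ε) → ∃ n, |x n - y| < ε := by
    intro i l h1 h2
    obtain ⟨j, hj⟩ := hmul i
    have e1 : F (x (i * p)) = F (x 0) + i * r - l * M := by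
      have h3 := hpos (x (i * p))
      have h4 := hlt (x (i * p))
      have h5 := hpos (y - ε)
      have h6 := hlt (y + ε)
      have h7 : F (x (i * p)) = (F (x 0) + i * r - l * M) + ((l - j : ℤ) : ℝ) * M := by
        rw [hj]
        push_cast
        ring
      have h8 : (((l - j : ℤ)) : ℝ) * M < 1 * M := by linarith
      have h9 : (-1 : ℝ) * M < ((l - j : ℤ) : ℝ) * M := by linarith
      have h10 : (((l - j : ℤ)) : ℝ) < 1 := lt_of_mul_lt_mul_right h8 hM.le
      have h11 : (-1 : ℝ) < ((l - j : ℤ) : ℝ) := lt_of_mul_lt_mul_right h9 hM.le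
      have h12 : l - j < 1 := by exact_mod_cast h10
      have h13 : -1 < l - j := by exact_mod_cast h11
      have h14 : l - j = 0 := by omega
      rw [h7, h14]
      simp
    rw [← e1] at h1 h2
    have h3 := hF.lt_iff_lt.1 h1
    have h4 := hF.lt_iff_lt.1 h2
    refine ⟨i * p, ?_⟩
    rw [abs_lt]
    constructor <;> linarith
  rcases lt_or_gt_of_ne hne with h | h
  · -- r < 0
    rw [abs_of_neg h] at hclose
    obtain ⟨i, h1, h2⟩ := c1_hit (A := -F (y + ε)) (B := -F (y - ε)) (z0 := -F (x 0))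
      (r := -r) (M := M) (by linarith) (by linarith) (by
        have := hlt (y + ε)
        have := hpos (x 0)
        linarith)
    refine hfin i (-1) ?_ ?_
    · push_cast
      linarith
    · push_cast
      linarith
  · rw [abs_of_pos h] at hclose
    obtain ⟨i, h1, h2⟩ := c1_hit (A := F (y - ε)) (B := F (y + ε)) (z0 := F (x 0))
      (r := r) (M := M) h (by linarith) (by
        have := hlt (x 0)
        have := hpos (y - ε)
        linarith)
    refine hfin i 1 ?_ ?_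
    · push_cast
      linarith
    · push_cast
      linarith

end RatApx

end
end

section

/-!
# B2 : the two reflections
-/

noncomputable section

namespace RatApx

variable {a b : ℝ}

theorem qq_pos (ha : 0 < a) (hb : 0 < b) (x : ℝ) :
    0 < (x ^ 2 + a ^ 2) * ((x - 1) ^ 2 + b ^ 2) := by positivity

theorem vv_pos (ha : 0 < a) (hb : 0 < b) (x : ℝ) : 0 < vv a b x :=
  Real.sqrt_pos.2 (qq_pos ha hb x)

theorem vv_sq' (ha : 0 < a) (hb : 0 < b) (x : ℝ) :
    vv a b x ^ 2 = (x ^ 2 + a ^ 2) * ((x - 1) ^ 2 + b ^ 2) :=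
  Real.sq_sqrt (qq_pos ha hb x).le

theorem vv_sq (ha : 0 < a) (hb : 0 < b) (x : ℝ) :
    vv a b x ^ 2 = BB a b x ^ 2 - 2 * dl a b * x + a ^ 2 - dl a b ^ 2 := by
  rw [vv_sq' ha hb]
  unfold BB dl
  ring

theorem UU_ge (_ha : 0 < a) (_hb : 0 < b) (x : ℝ) :
    (a + b) ^ 2 / 2 ≤ BB a b x + vv a b x := by
  have h1 : a * b - x * (x - 1) ≤ vv a b x := by
    apply Real.le_sqrt_of_sq_le
    nlinarith [sq_nonneg (b * x + a * (x - 1))]
  unfold BB
  nlinarith

theorem UU_pos (ha : 0 < a) (hb : 0 < b) (x : ℝ) : 0 < BB a b x + vv a b x := by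
  have := UU_ge ha hb x
  have h2 : 0 < (a + b) ^ 2 / 2 := by positivity
  linarith

theorem HH_le (_ha : 0 < a) (_hb : 0 < b) (x : ℝ) :
    BB a b x - vv a b x ≤ (a - b) ^ 2 / 2 := by
  have h1 : a * b + x * (x - 1) ≤ vv a b x := by
    apply Real.le_sqrt_of_sq_le
    nlinarith [sq_nonneg (b * x - a * (x - 1))]
  unfold BB
  nlinarith

theorem HU (ha : 0 < a) (hb : 0 < b) (hab : b < a) (x : ℝ) :
    (BB a b x - vv a b x) * (BB a b x + vv a b x) = 2 * dl a b * (x - xp a b) := by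
  have h1 := vv_sq ha hb x
  have hd : dl a b ≠ 0 := by
    unfold dl
    have : 0 < (a - b) * (a + b) := mul_pos (by linarith) (by linarith)
    have h2 : (a ^ 2 - b ^ 2) / 2 = (a - b) * (a + b) / 2 := by ring
    rw [h2]
    positivity
  have h2 : 2 * dl a b * xp a b = a ^ 2 - dl a b ^ 2 := by
    unfold xp
    field_simp
  linear_combination -h1 + h2

theorem dl_pos (ha : 0 < a) (hb : 0 < b) (hab : b < a) : 0 < dl a b := by
  unfold dl
  have : 0 < (a - b) * (a + b) := mul_pos (by linarith) (by linarith)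
  have h2 : (a ^ 2 - b ^ 2) / 2 = (a - b) * (a + b) / 2 := by ring
  rw [h2]
  positivity

/-- For `w = ± v`, `W = B + w`, `x' = 1 - x + δ/W`: `(W - B(x'))² = v(x')²`. -/
theorem refl_sq (ha : 0 < a) (hb : 0 < b) (x w : ℝ) (hw : w ^ 2 = vv a b x ^ 2)
    (hW : BB a b x + w ≠ 0) :
    (BB a b x + w - BB a b (1 - x + dl a b / (BB a b x + w))) ^ 2 =
      vv a b (1 - x + dl a b / (BB a b x + w)) ^ 2 := by
  set W := BB a b x + w with hWd
  set x' := 1 - x + dl a b / W with hx'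
  have h1 := vv_sq ha hb x
  have h2 := vv_sq ha hb x'
  have h3 : W * (x' + x - 1) = dl a b := by
    rw [hx']
    field_simp
    ring
  have h4 : BB a b x' - BB a b x = (x' - x) * (x' + x - 1) := by
    unfold BB
    ring
  have h5 : w = W - BB a b x := by rw [hWd]; ring
  rw [h2]
  rw [h1, h5] at hw
  linear_combination hw - 2 * (x' - x) * h3 - 2 * W * h4

theorem vv_i2 (ha : 0 < a) (hb : 0 < b) (x : ℝ) :
    vv a b (i2 a b x) = BB a b x + vv a b x - BB a b (i2 a b x) := by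
  have hU := UU_pos ha hb x
  have h1 := refl_sq ha hb x (vv a b x) rfl hU.ne'
  change (BB a b x + vv a b x - BB a b (i2 a b x)) ^ 2 = vv a b (i2 a b x) ^ 2 at h1
  rcases sq_eq_sq_iff_eq_or_eq_neg.1 h1 with h2 | h2
  · exact h2.symm
  · exfalso
    have h3 := UU_ge ha hb x
    have h4 := HH_le ha hb (i2 a b x)
    have h5 : 0 < a * b := mul_pos ha hb
    nlinarith

theorem vv_i1 (ha : 0 < a) (hb : 0 < b) (x : ℝ) (hH : BB a b x - vv a b x ≠ 0) :
    vv a b (i1 a b x) = -(BB a b x - vv a b x - BB a b (i1 a b x)) := by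
  have h1 := refl_sq ha hb x (-vv a b x) (by ring) (by rwa [← sub_eq_add_neg])
  simp only [← sub_eq_add_neg] at h1
  change (BB a b x - vv a b x - BB a b (i1 a b x)) ^ 2 = vv a b (i1 a b x) ^ 2 at h1
  rcases sq_eq_sq_iff_eq_or_eq_neg.1 h1 with h2 | h2
  · exfalso
    have h3 := UU_ge ha hb (i1 a b x)
    have h4 := HH_le ha hb x
    have h5 : 0 < a * b := mul_pos ha hb
    nlinarith
  · rw [h2]
    ring

theorem hasDerivAt_vv (ha : 0 < a) (hb : 0 < b) (x : ℝ) :
    HasDerivAt (vv a b) (((2 * x - 1) * BB a b x - dl a b) / vv a b x) x := by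
  have h0 := (qq_pos ha hb x).ne'
  have h1 : HasDerivAt (fun x : ℝ => (x ^ 2 + a ^ 2) * ((x - 1) ^ 2 + b ^ 2))
      ((2 * x) * ((x - 1) ^ 2 + b ^ 2) + (x ^ 2 + a ^ 2) * (2 * (x - 1))) x := by
    have e1 : HasDerivAt (fun x : ℝ => x ^ 2 + a ^ 2) (2 * x) x := by
      have := (hasDerivAt_pow 2 x).add_const (a ^ 2)
      simpa using this
    have e2 : HasDerivAt (fun x : ℝ => (x - 1) ^ 2 + b ^ 2) (2 * (x - 1)) x := by
      have := (((hasDerivAt_id x).sub_const 1).pow 2).add_const (b ^ 2)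
      simpa using this
    exact e1.mul e2
  have h2 := h1.sqrt h0
  have h3 : ((2 * x) * ((x - 1) ^ 2 + b ^ 2) + (x ^ 2 + a ^ 2) * (2 * (x - 1))) /
      (2 * Real.sqrt ((x ^ 2 + a ^ 2) * ((x - 1) ^ 2 + b ^ 2))) =
      ((2 * x - 1) * BB a b x - dl a b) / vv a b x := by
    have hv := vv_pos ha hb x
    have hv' : 0 < Real.sqrt ((x ^ 2 + a ^ 2) * ((x - 1) ^ 2 + b ^ 2)) := hv
    change _ / (2 * vv a b x) = _
    rw [div_eq_div_iff (by positivity) hv.ne']
    unfold BB dl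
    ring
  rw [h3] at h2
  exact h2

theorem hasDerivAt_BB (x : ℝ) : HasDerivAt (BB a b) (2 * x - 1) x := by
  unfold BB
  have := ((hasDerivAt_pow 2 x).sub (hasDerivAt_id x)).add_const ((a ^ 2 + b ^ 2) / 2)
  simpa using this

theorem hasDerivAt_i2 (ha : 0 < a) (hb : 0 < b) (x : ℝ) :
    HasDerivAt (i2 a b) (-(vv a b (i2 a b x)) / vv a b x) x := by
  have hU := UU_pos ha hb x
  have hv := vv_pos ha hb x
  have h1 := ((hasDerivAt_id x).const_sub 1).add
    ((hasDerivAt_const x (dl a b)).div ((hasDerivAt_BB (a := a) (b := b) x).add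
      (hasDerivAt_vv ha hb x)) hU.ne')
  refine HasDerivAt.congr_deriv h1 ?_
  have h3 : (BB a b x + vv a b x) * (i2 a b x + x - 1) = dl a b := by
    unfold i2
    field_simp
    ring
  have h4 : BB a b (i2 a b x) - BB a b x = (i2 a b x - x) * (i2 a b x + x - 1) := by
    unfold BB
    ring
  have h6 : i2 a b x = 1 - x + dl a b / (BB a b x + vv a b x) := rfl
  have h5 : vv a b (i2 a b x) = vv a b x - (i2 a b x - x) * (i2 a b x + x - 1) := by
    rw [vv_i2 ha hb]
    linear_combination -h4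
  rw [h5, h6]
  simp only [Pi.add_apply]
  have hUn := hU.ne'
  field_simp
  ring

theorem hasDerivAt_i1 (ha : 0 < a) (hb : 0 < b) (x : ℝ) (hH : BB a b x - vv a b x ≠ 0) :
    HasDerivAt (i1 a b) (-(vv a b (i1 a b x)) / vv a b x) x := by
  have hv := vv_pos ha hb x
  have h1 := ((hasDerivAt_id x).const_sub 1).add
    ((hasDerivAt_const x (dl a b)).div ((hasDerivAt_BB (a := a) (b := b) x).sub
      (hasDerivAt_vv ha hb x)) hH)
  refine HasDerivAt.congr_deriv h1 ?_
  have h4 : BB a b (i1 a b x) - BB a b x = (i1 a b x - x) * (i1 a b x + x - 1) := by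
    unfold BB
    ring
  have h6 : i1 a b x = 1 - x + dl a b / (BB a b x - vv a b x) := rfl
  have h5 : vv a b (i1 a b x) = vv a b x + (i1 a b x - x) * (i1 a b x + x - 1) := by
    rw [vv_i1 ha hb x hH]
    linear_combination h4
  rw [h5, h6]
  simp only [Pi.sub_apply]
  field_simp
  ring

end RatApx

end
end

section

/-!
# B3 : the invariant integral
-/

noncomputable section

namespace RatApx

open Filter Topology

variable {a b : ℝ}

/-- the primitive of `1/v` -/
structure IsF (a b : ℝ) (F : ℝ → ℝ) (M : ℝ) : Prop where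
  der : ∀ x, HasDerivAt F (1 / vv a b x) x
  bot : Tendsto F atBot (𝓝 0)
  top : Tendsto F atTop (𝓝 M)

theorem continuous_vv (a b : ℝ) : Continuous (vv a b) := by
  unfold vv
  fun_prop

theorem inv_vv_le (ha : 0 < a) (hb : 0 < b) : ∃ K : ℝ, 0 < K ∧
    ∀ x, 1 / vv a b x ≤ K * (1 / (1 + x ^ 2)) := by
  refine ⟨(1 + 1 / a ^ 2) + (2 + 3 / b ^ 2), by positivity, ?_⟩
  intro x
  have hv := vv_pos ha hb x
  have h1 : 1 + x ^ 2 ≤ (1 + 1 / a ^ 2) * (x ^ 2 + a ^ 2) := by
    have : (1 + 1 / a ^ 2) * (x ^ 2 + a ^ 2) = x ^ 2 + a ^ 2 + x ^ 2 / a ^ 2 + 1 := by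
      field_simp
      ring
    rw [this]
    have h3 : 0 ≤ x ^ 2 / a ^ 2 := by positivity
    have h4 : 0 < a ^ 2 := by positivity
    linarith
  have h2 : 1 + x ^ 2 ≤ (2 + 3 / b ^ 2) * ((x - 1) ^ 2 + b ^ 2) := by
    have : (2 + 3 / b ^ 2) * ((x - 1) ^ 2 + b ^ 2) =
        2 * (x - 1) ^ 2 + 2 * b ^ 2 + 3 * (x - 1) ^ 2 / b ^ 2 + 3 := by
      field_simp
      ring
    rw [this]
    have h3 : 0 ≤ 3 * (x - 1) ^ 2 / b ^ 2 := by positivity
    have h4 : 0 < b ^ 2 := by positivity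
    nlinarith [sq_nonneg (x - 2)]
  have h5 : 1 + x ^ 2 ≤ ((1 + 1 / a ^ 2) + (2 + 3 / b ^ 2)) * vv a b x := by
    have e1 : (0 : ℝ) < 1 + 1 / a ^ 2 := by positivity
    have e2 : (0 : ℝ) < 2 + 3 / b ^ 2 := by positivity
    apply le_of_sq_le_sq _ (by positivity)
    rw [mul_pow, vv_sq' ha hb]
    have e3 : (1 + x ^ 2) ^ 2 ≤ ((1 + 1 / a ^ 2) * (x ^ 2 + a ^ 2)) *
        ((2 + 3 / b ^ 2) * ((x - 1) ^ 2 + b ^ 2)) := by
      rw [pow_two]
      exact mul_le_mul h1 h2 (by positivity) (by positivity)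
    have e4 : ((1 + 1 / a ^ 2) * (x ^ 2 + a ^ 2)) * ((2 + 3 / b ^ 2) * ((x - 1) ^ 2 + b ^ 2)) =
        ((1 + 1 / a ^ 2) * (2 + 3 / b ^ 2)) * ((x ^ 2 + a ^ 2) * ((x - 1) ^ 2 + b ^ 2)) := by ring
    rw [e4] at e3
    refine e3.trans (mul_le_mul_of_nonneg_right ?_ (qq_pos ha hb x).le)
    nlinarith
  rw [mul_one_div, div_le_div_iff₀ hv (by positivity)]
  linarith

theorem exists_F (ha : 0 < a) (hb : 0 < b) : ∃ (F : ℝ → ℝ) (M : ℝ), IsF a b F M := by
  obtain ⟨K, hK, hle⟩ := inv_vv_le ha hb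
  have hcont : Continuous (fun x => 1 / vv a b x) := by
    apply Continuous.div continuous_const (continuous_vv a b)
    intro x
    exact (vv_pos ha hb x).ne'
  set F0 : ℝ → ℝ := fun x => ∫ u in (0 : ℝ)..x, 1 / vv a b u with hF0
  have hder : ∀ x, HasDerivAt F0 (1 / vv a b x) x := by
    intro x
    exact intervalIntegral.integral_hasDerivAt_right (hcont.intervalIntegrable _ _)
      (hcont.stronglyMeasurableAtFilter _ _) hcont.continuousAt
  have hmono : Monotone F0 := by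
    apply monotone_of_deriv_nonneg (fun x => (hder x).differentiableAt)
    intro x
    rw [(hder x).deriv]
    exact (one_div_pos.2 (vv_pos ha hb x)).le
  have hG : Monotone (fun x => K * Real.arctan x - F0 x) := by
    have hd : ∀ x, HasDerivAt (fun x => K * Real.arctan x - F0 x)
        (K * (1 / (1 + x ^ 2)) - 1 / vv a b x) x := by
      intro x
      exact ((Real.hasDerivAt_arctan x).const_mul K).sub (hder x)
    apply monotone_of_deriv_nonneg (fun x => (hd x).differentiableAt)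
    intro x
    rw [(hd x).deriv]
    have := hle x
    linarith
  have h00 : F0 0 = 0 := by
    simp [hF0]
  have hup : ∀ x, F0 x ≤ K * (Real.pi / 2) := by
    intro x
    rcases le_total 0 x with h | h
    · have h1 := hG h
      simp only [Real.arctan_zero, h00] at h1
      have h2 := Real.arctan_lt_pi_div_two x
      nlinarith
    · have h1 := hmono h
      rw [h00] at h1
      have := Real.pi_pos
      have h3 : 0 ≤ K * (Real.pi / 2) := by positivity
      linarith
  have hlow : ∀ x, -(K * (Real.pi / 2)) ≤ F0 x := by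
    intro x
    rcases le_total x 0 with h | h
    · have h1 := hG h
      simp only [Real.arctan_zero, h00] at h1
      have h2 := Real.neg_pi_div_two_lt_arctan x
      nlinarith
    · have h1 := hmono h
      rw [h00] at h1
      have := Real.pi_pos
      have h3 : 0 ≤ K * (Real.pi / 2) := by positivity
      linarith
  have hbdA : BddAbove (Set.range F0) := ⟨_, by rintro _ ⟨x, rfl⟩; exact hup x⟩
  have hbdB : BddBelow (Set.range F0) := ⟨_, by rintro _ ⟨x, rfl⟩; exact hlow x⟩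
  have ht1 := tendsto_atTop_ciSup hmono hbdA
  have ht2 := tendsto_atBot_ciInf hmono hbdB
  refine ⟨fun x => F0 x - ⨅ i, F0 i, (⨆ i, F0 i) - ⨅ i, F0 i, ?_, ?_, ?_⟩
  · intro x
    exact (hder x).sub_const _
  · have := ht2.sub_const (⨅ i, F0 i)
    simpa using this
  · exact ht1.sub_const _

variable {F : ℝ → ℝ} {M : ℝ}

theorem IsF.strictMono (ha : 0 < a) (hb : 0 < b) (h : IsF a b F M) : StrictMono F := by
  apply strictMono_of_deriv_pos
  intro x
  rw [(h.der x).deriv]
  exact one_div_pos.2 (vv_pos ha hb x)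

theorem IsF.continuous (h : IsF a b F M) : Continuous F := by
  rw [continuous_iff_continuousAt]
  intro x
  exact (h.der x).continuousAt

theorem IsF.pos (ha : 0 < a) (hb : 0 < b) (h : IsF a b F M) (x : ℝ) : 0 < F x := by
  have hm := h.strictMono ha hb
  have h1 : 0 ≤ F (x - 1) := hm.monotone.le_of_tendsto h.bot (x - 1)
  exact lt_of_le_of_lt h1 (hm (by linarith))

theorem IsF.lt (ha : 0 < a) (hb : 0 < b) (h : IsF a b F M) (x : ℝ) : F x < M := by
  have hm := h.strictMono ha hb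
  have h1 : F (x + 1) ≤ M := hm.monotone.ge_of_tendsto h.top (x + 1)
  exact lt_of_lt_of_le (hm (by linarith)) h1

theorem F_i2 (ha : 0 < a) (hb : 0 < b) (hab : b < a) (h : IsF a b F M) (x : ℝ) :
    F (i2 a b x) = M - F x := by
  have hd : ∀ x, HasDerivAt (fun x => F (i2 a b x) + F x) 0 x := by
    intro x
    have h1 := ((h.der (i2 a b x)).comp x (hasDerivAt_i2 ha hb x)).add (h.der x)
    refine HasDerivAt.congr_deriv h1 ?_
    have e1 := vv_pos ha hb x
    have e2 := vv_pos ha hb (i2 a b x)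
    field_simp
    ring
  have hc : ∀ y, F (i2 a b y) + F y = F (i2 a b x) + F x := fun y =>
    is_const_of_deriv_eq_zero (fun z => (hd z).differentiableAt) (fun z => (hd z).deriv) y x
  have ht1 : Tendsto (i2 a b) atBot atTop := by
    have h2 : Tendsto (fun x : ℝ => 1 - x) atBot atTop := by
      have := tendsto_neg_atBot_atTop (G := ℝ)
      exact tendsto_atTop_add_const_left _ 1 this
    refine tendsto_atTop_mono (fun y => ?_) h2
    unfold i2
    have := div_pos (dl_pos ha hb hab) (UU_pos ha hb y)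
    linarith
  have ht2 : Tendsto (fun y => F (i2 a b y) + F y) atBot (𝓝 (M + 0)) :=
    (h.top.comp ht1).add h.bot
  have ht3 : Tendsto (fun y => F (i2 a b y) + F y) atBot (𝓝 (F (i2 a b x) + F x)) := by
    simp only [hc]
    exact tendsto_const_nhds
  have := tendsto_nhds_unique ht2 ht3
  linarith

theorem HH_neg (ha : 0 < a) (hb : 0 < b) (hab : b < a) {x : ℝ} (hx : x < xp a b) :
    BB a b x - vv a b x < 0 := by
  have h1 := HU ha hb hab x
  have h2 := UU_pos ha hb x
  have h3 := dl_pos ha hb hab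
  by_contra h4
  push Not at h4
  have h5 : 0 ≤ (BB a b x - vv a b x) * (BB a b x + vv a b x) := mul_nonneg h4 h2.le
  nlinarith

theorem HH_pos (ha : 0 < a) (hb : 0 < b) (hab : b < a) {x : ℝ} (hx : xp a b < x) :
    0 < BB a b x - vv a b x := by
  have h1 := HU ha hb hab x
  have h2 := UU_pos ha hb x
  have h3 := dl_pos ha hb hab
  by_contra h4
  push Not at h4
  have h5 : (BB a b x - vv a b x) * (BB a b x + vv a b x) ≤ 0 :=
    mul_nonpos_of_nonpos_of_nonneg h4 h2.le
  nlinarith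

theorem HH_zero (ha : 0 < a) (hb : 0 < b) (hab : b < a) :
    BB a b (xp a b) - vv a b (xp a b) = 0 := by
  have h1 := HU ha hb hab (xp a b)
  have h2 := UU_pos ha hb (xp a b)
  rw [sub_self, mul_zero] at h1
  rcases mul_eq_zero.1 h1 with h3 | h3
  · exact h3
  · exact absurd h3 h2.ne'

theorem continuous_HH (a b : ℝ) : Continuous (fun x => BB a b x - vv a b x) := by
  apply Continuous.sub _ (continuous_vv a b)
  unfold BB
  fun_prop

theorem F_i1_lt (ha : 0 < a) (hb : 0 < b) (hab : b < a) (h : IsF a b F M) {x : ℝ}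
    (hx : x < xp a b) : F (i1 a b x) = F (xp a b) - F x := by
  have hd : ∀ x, x < xp a b → HasDerivAt (fun x => F (i1 a b x) + F x) 0 x := by
    intro x hx
    have h1 := ((h.der (i1 a b x)).comp x (hasDerivAt_i1 ha hb x (HH_neg ha hb hab hx).ne)).add
      (h.der x)
    refine HasDerivAt.congr_deriv h1 ?_
    have e1 := vv_pos ha hb x
    have e2 := vv_pos ha hb (i1 a b x)
    field_simp
    ring
  have hc : ∀ y ∈ Set.Iio (xp a b), F (i1 a b y) + F y = F (i1 a b x) + F x := fun y hy =>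
    isOpen_Iio.is_const_of_deriv_eq_zero isPreconnected_Iio
      (fun z hz => (hd z hz).differentiableAt.differentiableWithinAt)
      (fun z hz => (hd z hz).deriv) hy hx
  have hH : Tendsto (fun y => BB a b y - vv a b y) (𝓝[<] (xp a b)) (𝓝[<] 0) := by
    rw [tendsto_nhdsWithin_iff]
    refine ⟨?_, ?_⟩
    · have := ((continuous_HH a b).tendsto (xp a b)).mono_left (nhdsWithin_le_nhds (s := Set.Iio (xp a b)))
      rwa [HH_zero ha hb hab] at this
    · filter_upwards [self_mem_nhdsWithin] with y hy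
      exact HH_neg ha hb hab hy
  have ht1 : Tendsto (i1 a b) (𝓝[<] (xp a b)) atBot := by
    have h2 : Tendsto (fun y => dl a b / (BB a b y - vv a b y)) (𝓝[<] (xp a b)) atBot := by
      have := (tendsto_inv_nhdsLT_zero.comp hH).const_mul_atBot (dl_pos ha hb hab)
      simpa [div_eq_mul_inv, Function.comp_def] using this
    have h3 : Tendsto (fun y : ℝ => 1 - y) (𝓝[<] (xp a b)) (𝓝 (1 - xp a b)) :=
      ((continuous_const.sub continuous_id).tendsto _).mono_left nhdsWithin_le_nhds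
    exact h3.add_atBot h2
  have ht2 : Tendsto (fun y => F (i1 a b y) + F y) (𝓝[<] (xp a b)) (𝓝 (0 + F (xp a b))) :=
    (h.bot.comp ht1).add ((h.continuous.tendsto _).mono_left nhdsWithin_le_nhds)
  have ht3 : Tendsto (fun y => F (i1 a b y) + F y) (𝓝[<] (xp a b))
      (𝓝 (F (i1 a b x) + F x)) := by
    refine tendsto_const_nhds.congr' ?_
    filter_upwards [self_mem_nhdsWithin] with y hy
    exact (hc y hy).symm
  have := tendsto_nhds_unique ht2 ht3
  linarith

theorem F_i1_gt (ha : 0 < a) (hb : 0 < b) (hab : b < a) (h : IsF a b F M) {x : ℝ}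
    (hx : xp a b < x) : F (i1 a b x) = M + F (xp a b) - F x := by
  have hd : ∀ x, xp a b < x → HasDerivAt (fun x => F (i1 a b x) + F x) 0 x := by
    intro x hx
    have h1 := ((h.der (i1 a b x)).comp x (hasDerivAt_i1 ha hb x (HH_pos ha hb hab hx).ne')).add
      (h.der x)
    refine HasDerivAt.congr_deriv h1 ?_
    have e1 := vv_pos ha hb x
    have e2 := vv_pos ha hb (i1 a b x)
    field_simp
    ring
  have hc : ∀ y ∈ Set.Ioi (xp a b), F (i1 a b y) + F y = F (i1 a b x) + F x := fun y hy =>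
    isOpen_Ioi.is_const_of_deriv_eq_zero isPreconnected_Ioi
      (fun z hz => (hd z hz).differentiableAt.differentiableWithinAt)
      (fun z hz => (hd z hz).deriv) hy hx
  have hH : Tendsto (fun y => BB a b y - vv a b y) (𝓝[>] (xp a b)) (𝓝[>] 0) := by
    rw [tendsto_nhdsWithin_iff]
    refine ⟨?_, ?_⟩
    · have := ((continuous_HH a b).tendsto (xp a b)).mono_left (nhdsWithin_le_nhds (s := Set.Ioi (xp a b)))
      rwa [HH_zero ha hb hab] at this
    · filter_upwards [self_mem_nhdsWithin] with y hy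
      exact HH_pos ha hb hab hy
  have ht1 : Tendsto (i1 a b) (𝓝[>] (xp a b)) atTop := by
    have h2 : Tendsto (fun y => dl a b / (BB a b y - vv a b y)) (𝓝[>] (xp a b)) atTop := by
      have := (tendsto_inv_nhdsGT_zero.comp hH).const_mul_atTop (dl_pos ha hb hab)
      simpa [div_eq_mul_inv, Function.comp_def] using this
    have h3 : Tendsto (fun y : ℝ => 1 - y) (𝓝[>] (xp a b)) (𝓝 (1 - xp a b)) :=
      ((continuous_const.sub continuous_id).tendsto _).mono_left nhdsWithin_le_nhds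
    exact h3.add_atTop h2
  have ht2 : Tendsto (fun y => F (i1 a b y) + F y) (𝓝[>] (xp a b)) (𝓝 (M + F (xp a b))) :=
    (h.top.comp ht1).add ((h.continuous.tendsto _).mono_left nhdsWithin_le_nhds)
  have ht3 : Tendsto (fun y => F (i1 a b y) + F y) (𝓝[>] (xp a b))
      (𝓝 (F (i1 a b x) + F x)) := by
    refine tendsto_const_nhds.congr' ?_
    filter_upwards [self_mem_nhdsWithin] with y hy
    exact (hc y hy).symm
  have := tendsto_nhds_unique ht2 ht3
  linarith

/-- the rotation -/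
theorem F_rot (ha : 0 < a) (hb : 0 < b) (hab : b < a) (h : IsF a b F M) {x : ℝ}
    (hx : i2 a b x ≠ xp a b) :
    ∃ j : ℤ, F (i1 a b (i2 a b x)) = F x + F (xp a b) - j * M := by
  have h2 := F_i2 ha hb hab h x
  rcases lt_or_gt_of_ne hx with h3 | h3
  · refine ⟨1, ?_⟩
    rw [F_i1_lt ha hb hab h h3, h2]
    push_cast
    ring
  · refine ⟨0, ?_⟩
    rw [F_i1_gt ha hb hab h h3, h2]
    push_cast
    ring

end RatApx

end
end

section

/-!
# A2 : the difference lemma
-/

noncomputable section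

namespace RatApx

/-- even elements -/
def Ev (x : ℚ) : Prop := ∃ u, Z2 u ∧ x = 2 * u

theorem Ev_Z2 {x : ℚ} (h : Ev x) : Z2 x := by
  obtain ⟨u, hu, rfl⟩ := h
  exact Z2_mul (by exact_mod_cast Z2_int 2) hu

theorem Ev_mul {x y : ℚ} (hx : Z2 x) (hy : Ev y) : Ev (x * y) := by
  obtain ⟨u, hu, rfl⟩ := hy
  exact ⟨x * u, Z2_mul hx hu, by ring⟩

theorem Od_add_Ev {x y : ℚ} (hx : Od x) (hy : Ev y) : Od (x + y) := by
  obtain ⟨u, hu, rfl⟩ := hy
  exact Od_add_two hx hu

theorem num_od {α β t k : ℚ} (hα : Od α) (hβ : Od β) (ht : Ev t) (hk : Od k) :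
    Od (α * k + β * t ^ 2) := by
  apply Od_add_Ev (Od_mul hα hk)
  rw [pow_two]
  exact Ev_mul (Od_Z2 hβ) (Ev_mul (Ev_Z2 ht) ht)

theorem th_od {α β t k : ℚ} (hα : Od α) (hβ : Od β) (ht : Ev t) (hk : Od k) :
    Od (th α β t k) :=
  Od_div (num_od hα hβ ht hk) (num_od hβ hα ht hk)

theorem kN_od {α β t k : ℚ} (hα : Od α) (hβ : Od β) (ht : Ev t) (hk : Od k) :
    Od (kN α β t k) := by
  unfold kN
  rw [pow_two]
  exact Od_mul hk (Od_mul (th_od hα hβ ht hk) (th_od hα hβ ht hk))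

theorem diff_lemma {α β t k t' k' : ℚ} (hα : Od α) (hβ : Od β) (ht : Ev t) (hk : Od k)
    (ht' : Ev t') (hk' : Od k') (h : CE α β t k) (h' : CE α β t' k') :
    ∃ u, Z2 u ∧ kN α β t k - kN α β t' k' = (k - k') * (1 + 8 * u) := by
  have zα := Od_Z2 hα
  have zβ := Od_Z2 hβ
  have zk := Od_Z2 hk
  have zk' := Od_Z2 hk'
  have zt := Ev_Z2 ht
  have zt' := Ev_Z2 ht'
  unfold CE at h h'
  -- the denominators
  have hN := num_od hα hβ ht hk
  have hD := num_od hβ hα ht hk
  have hN' := num_od hα hβ ht' hk'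
  have hD' := num_od hβ hα ht' hk'
  -- t - t' = (k - k') w
  have hden : Od ((α - β * k) * (t + t') - k) := by
    have h1 : Ev ((α - β * k) * (t + t')) := by
      apply Ev_mul (Z2_sub zα (Z2_mul zβ zk))
      obtain ⟨u, hu, rfl⟩ := ht
      obtain ⟨v, hv, rfl⟩ := ht'
      exact ⟨u + v, Z2_add hu hv, by ring⟩
    have := Od_add_Ev (Od_neg hk) h1
    rwa [neg_add_eq_sub] at this
  have hw : (t - t') = (k - k') * ((α * (k + k') - β + β * t' ^ 2 + t') /
      ((α - β * k) * (t + t') - k)) := by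
    rw [← mul_div_assoc, eq_div_iff (Od_ne hden)]
    linear_combination h - h'
  obtain ⟨w, hwz, hw2⟩ : ∃ w, Z2 w ∧ t - t' = (k - k') * w := by
    refine ⟨_, ?_, hw⟩
    rw [div_eq_mul_inv]
    refine Z2_mul (Z2_add (Z2_add (Z2_sub (Z2_mul zα (Z2_add zk zk')) zβ)
      (Z2_mul zβ (Z2_pow zt' 2))) zt') (Od_Z2 (Od_inv hden))
  -- squares
  obtain ⟨a1, ha1, ha2⟩ := Od_sq hα
  obtain ⟨b1, hb1, hb2⟩ := Od_sq hβ
  obtain ⟨u1, hu1, hu2⟩ := Od_sq (th_od hα hβ ht hk)
  have zθ := Od_Z2 (th_od hα hβ ht hk)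
  have zθ' := Od_Z2 (th_od hα hβ ht' hk')
  -- θ - θ'
  have hθ : th α β t k - th α β t' k' = (k - k') * (8 * ((a1 - b1) *
      (-k * w * (t + t') + t ^ 2) / ((β * k + α * t ^ 2) * (β * k' + α * t' ^ 2)))) := by
    unfold th
    have e1 := Od_ne hD
    have e2 := Od_ne hD'
    rw [div_sub_div _ _ e1 e2, ← mul_div_assoc, ← mul_div_assoc]
    congr 1
    have e3 : k * t' ^ 2 - k' * t ^ 2 = (k - k') * (-k * w * (t + t') + t ^ 2) := by
      linear_combination (-k * (t + t')) * hw2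
    have e4 : α ^ 2 - β ^ 2 = 8 * (a1 - b1) := by linear_combination ha2 - hb2
    have e5 : (α * k + β * t ^ 2) * (β * k' + α * t' ^ 2) -
        (β * k + α * t ^ 2) * (α * k' + β * t' ^ 2) =
        (α ^ 2 - β ^ 2) * (k * t' ^ 2 - k' * t ^ 2) := by ring
    rw [e5, e3, e4]
    ring
  have zfr : Z2 ((a1 - b1) * (-k * w * (t + t') + t ^ 2) /
      ((β * k + α * t ^ 2) * (β * k' + α * t' ^ 2))) := by
    rw [div_eq_mul_inv]
    refine Z2_mul (Z2_mul (Z2_sub ha1 hb1) (Z2_add (Z2_mul (Z2_mul (Z2_neg zk) hwz)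
      (Z2_add zt zt')) (Z2_pow zt 2))) (Od_Z2 (Od_inv (Od_mul hD hD')))
  refine ⟨u1 + k' * (th α β t k + th α β t' k') * ((a1 - b1) *
      (-k * w * (t + t') + t ^ 2) / ((β * k + α * t ^ 2) * (β * k' + α * t' ^ 2))),
    Z2_add hu1 (Z2_mul (Z2_mul zk' (Z2_add zθ zθ')) zfr), ?_⟩
  unfold kN
  linear_combination (k - k') * hu2 + k' * (th α β t k + th α β t' k') * hθ

end RatApx

end
end
end
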