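import Mathlib

/-!
# The notions used in the statements

* `IsRat X`: every two points of `X` are at rational distance.
* `RatAppr P`: `P` is rationally approximable: for every `ε > 0` there is a rational set `X` such that
  every point of `P` lies within distance `ε` of some point of `X`.
* `lineSet o v`: the line through `o` with direction `v`.
* `mirror o v p`: the mirror image of `p` in that line (twice the foot of the perpendicular minus `p`).
-/

set_option autoImplicit false

noncomputable section

namespace RatApx

/-- Every two points of `X` are at rational distance. -/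
def IsRatSet (X : Set (EuclideanSpace ℝ (Fin 2))) : Prop :=
  ∀ x ∈ X, ∀ y ∈ X, ∃ r : ℚ, dist x y = (r : ℝ)

/-- `P` is rationally approximable: for every `ε > 0` there is a rational set `X` such that every point
of `P` lies within distance `ε` of some point of `X`. -/
def RatApprox (P : Set (EuclideanSpace ℝ (Fin 2))) : Prop :=
  ∀ ε : ℝ, 0 < ε → ∃ X : Set (EuclideanSpace ℝ (Fin 2)), IsRatSet X ∧
    ∀ p ∈ P, ∃ x ∈ X, dist p x < ε

/-- The line through `o` with direction `v`. -/
def lineSet (o v : EuclideanSpace ℝ (Fin 2)) : Set (EuclideanSpace ℝ (Fin 2)) :=
  {z | ∃ t : ℝ, z = o + t • v}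

/-- The mirror image of `p` in the line through `o` with direction `v`. -/
def mirror (o v p : EuclideanSpace ℝ (Fin 2)) : EuclideanSpace ℝ (Fin 2) :=
  (2 : ℝ) • (o + (inner ℝ v (p - o) / inner ℝ v v) • v) - p

end RatApx

end
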