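import Pool.Agent.Lib.MP_431f31_co.A2
import Pool.Agent.Lib.MP_431f31_co.Stmt

section

/-!
# D1 : the parameters
-/

noncomputable section

namespace RatApx

open Filter Topology

theorem frac_dense (c : ℤ) (x δ : ℝ) (hδ : 0 < δ) :
    ∃ (i : ℤ) (j : ℕ), |(8 * (i : ℝ) + c) / (8 * (j : ℝ) + 1) - x| < δ := by
  obtain ⟨j, hj⟩ := exists_nat_gt (8 / δ)
  have hj0 : (0 : ℝ) < 8 * (j : ℝ) + 1 := by positivity
  refine ⟨⌊(x * (8 * j + 1) - c) / 8⌋, j, ?_⟩
  have h1 := Int.floor_le ((x * (8 * j + 1) - c) / 8)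
  have h2 := Int.lt_floor_add_one ((x * (8 * j + 1) - c) / 8)
  set i := ⌊(x * (8 * j + 1) - c) / 8⌋
  have h3 : (8 * (i : ℝ) + c) / (8 * (j : ℝ) + 1) - x =
      (8 * (i : ℝ) + c - x * (8 * j + 1)) / (8 * (j : ℝ) + 1) := by
    field_simp
  have h4 : 8 < δ * (8 * (j : ℝ) + 1) := by
    rw [div_lt_iff₀ hδ] at hj
    nlinarith
  rw [h3, abs_div, abs_of_pos hj0, div_lt_iff₀ hj0, abs_lt]
  constructor <;> linarith

/-- `(r - 1/r)/2` -/
def gf (r : ℝ) : ℝ := (r - 1 / r) / 2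

theorem gf_surj (g : ℝ) : ∃ r : ℝ, 0 < r ∧ gf r = g := by
  have h0 : 0 < g ^ 2 + 1 := by positivity
  have h1 : 0 < g + Real.sqrt (g ^ 2 + 1) := by
    have h2 : |g| < Real.sqrt (g ^ 2 + 1) := by
      apply Real.lt_sqrt_of_sq_lt
      rw [sq_abs]
      linarith
    have := neg_abs_le g
    linarith
  refine ⟨_, h1, ?_⟩
  unfold gf
  have h3 := Real.sq_sqrt h0.le
  have h4 : 1 / (g + Real.sqrt (g ^ 2 + 1)) = Real.sqrt (g ^ 2 + 1) - g := by
    rw [div_eq_iff h1.ne']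
    linear_combination -h3
  rw [h4]
  ring

theorem gf_approx (c : ℤ) (g δ : ℝ) (hδ : 0 < δ) :
    ∃ (i : ℤ) (j : ℕ), 0 < (8 * (i : ℝ) + c) / (8 * (j : ℝ) + 1) ∧
      |gf ((8 * (i : ℝ) + c) / (8 * (j : ℝ) + 1)) - g| < δ := by
  obtain ⟨r, hr, rfl⟩ := gf_surj g
  have hc : ContinuousAt gf r := by
    unfold gf
    apply ContinuousAt.div_const
    exact continuousAt_id.sub (continuousAt_const.div continuousAt_id hr.ne')
  have h1 := (Metric.continuousAt_iff.1 hc) δ hδ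
  obtain ⟨η, hη, h2⟩ := h1
  obtain ⟨i, j, hij⟩ := frac_dense c r (min η r) (lt_min hη hr)
  refine ⟨i, j, ?_, ?_⟩
  · have := (abs_lt.1 (hij.trans_le (min_le_right _ _))).1
    linarith
  · have := h2 (x := (8 * (i : ℝ) + c) / (8 * (j : ℝ) + 1)) (by
      rw [Real.dist_eq]
      exact hij.trans_le (min_le_left _ _))
    rwa [Real.dist_eq] at this

/-- rational values and 2-adic values -/
theorem g_val (i : ℤ) (j : ℕ) : ∃ g : ℚ, (g : ℝ) = gf ((8 * (i : ℝ) + 3) / (8 * (j : ℝ) + 1)) ∧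
    (∃ u, Od u ∧ g = 4 * u) ∧ ∃ r : ℚ, 1 + g ^ 2 = r ^ 2 := by
  have hp : (8 * (i : ℚ) + 3) ≠ 0 := by
    intro h
    have : 8 * i + 3 = 0 := by exact_mod_cast h
    omega
  have hq : (8 * (j : ℚ) + 1) ≠ 0 := by positivity
  have hp' : (8 * (i : ℝ) + 3) ≠ 0 := by exact_mod_cast hp
  have hq' : (8 * (j : ℝ) + 1) ≠ 0 := by exact_mod_cast hq
  refine ⟨((8 * (i : ℚ) + 3) / (8 * (j : ℚ) + 1) - 1 / ((8 * (i : ℚ) + 3) / (8 * (j : ℚ) + 1))) / 2,
    ?_, ⟨((4 * (i - j) + 1 : ℤ) * (2 * (i + j) + 1 : ℤ)) / ((8 * i + 3 : ℤ) * (8 * j + 1 : ℤ)),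
      ?_, ?_⟩, ⟨((8 * (i : ℚ) + 3) / (8 * (j : ℚ) + 1) +
        1 / ((8 * (i : ℚ) + 3) / (8 * (j : ℚ) + 1))) / 2, ?_⟩⟩
  · unfold gf
    push_cast
    rfl
  · apply Od_div
    · apply Od_mul
      · exact (Od_iff _).2 ⟨4 * (i - j) + 1, 1, by omega, by norm_num, by simp⟩
      · exact (Od_iff _).2 ⟨2 * (i + j) + 1, 1, by omega, by norm_num, by simp⟩
    · apply Od_mul
      · exact (Od_iff _).2 ⟨8 * i + 3, 1, by omega, by norm_num, by simp⟩
      · exact (Od_iff _).2 ⟨8 * j + 1, 1, by omega, by norm_num, by simp⟩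
  · push_cast
    field_simp
    ring
  · field_simp
    ring

theorem h_val (i : ℤ) (j : ℕ) (_hi : 0 < (8 * (i : ℝ) + 1) / (8 * (j : ℝ) + 1)) :
    ∃ h : ℚ, (h : ℝ) = gf ((8 * (i : ℝ) + 1) / (8 * (j : ℝ) + 1)) ∧
    (∃ u, Z2 u ∧ h = 8 * u) ∧ ∃ r : ℚ, 1 + h ^ 2 = r ^ 2 := by
  have hp : (8 * (i : ℚ) + 1) ≠ 0 := by
    intro h
    have : 8 * i + 1 = 0 := by exact_mod_cast h
    omega
  have hq : (8 * (j : ℚ) + 1) ≠ 0 := by positivity
  refine ⟨((8 * (i : ℚ) + 1) / (8 * (j : ℚ) + 1) - 1 / ((8 * (i : ℚ) + 1) / (8 * (j : ℚ) + 1))) / 2,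
    ?_, ⟨((i - j : ℤ) * (4 * (i + j) + 1 : ℤ)) / ((8 * i + 1 : ℤ) * (8 * j + 1 : ℤ)),
      ?_, ?_⟩, ⟨((8 * (i : ℚ) + 1) / (8 * (j : ℚ) + 1) +
        1 / ((8 * (i : ℚ) + 1) / (8 * (j : ℚ) + 1))) / 2, ?_⟩⟩
  · unfold gf
    push_cast
    rfl
  · rw [div_eq_mul_inv]
    apply Z2_mul
    · exact Z2_mul (Z2_int _) (Z2_int _)
    · apply Od_Z2
      apply Od_inv
      apply Od_mul
      · exact (Od_iff _).2 ⟨8 * i + 1, 1, by omega, by norm_num, by simp⟩
      · exact (Od_iff _).2 ⟨8 * j + 1, 1, by omega, by norm_num, by simp⟩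
  · push_cast
    field_simp
    ring
  · field_simp
    ring

/-- The parameters: `g = 2 (α + β)`, `h = 2 (α - β)`. -/
theorem params {g h : ℝ} (hh : 0 < h) (hgh : h < g) {ε : ℝ} (hε : 0 < ε) :
    ∃ α β : ℚ, Od α ∧ Od β ∧ 0 < β ∧ β < α ∧ |(2 * α + 2 * β : ℝ) - g| < ε ∧
      |(2 * α - 2 * β : ℝ) - h| < ε ∧ (∃ r : ℚ, 1 + (2 * α + 2 * β) ^ 2 = r ^ 2) ∧
      ∃ r : ℚ, 1 + (2 * α - 2 * β) ^ 2 = r ^ 2 := by
  set δ := min ε (min h ((g - h) / 2)) with hδ
  have hδ0 : 0 < δ := lt_min hε (lt_min hh (by linarith))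
  have hδ1 : δ ≤ ε := min_le_left _ _
  have hδ2 : δ ≤ h := (min_le_right _ _).trans (min_le_left _ _)
  have hδ3 : δ ≤ (g - h) / 2 := (min_le_right _ _).trans (min_le_right _ _)
  obtain ⟨i, j, hij0, hij⟩ := gf_approx 3 g δ hδ0
  obtain ⟨i', j', hij0', hij'⟩ := gf_approx 1 h δ hδ0
  push_cast at hij0 hij hij0' hij'
  obtain ⟨g', hg1, ⟨u, hu, hg2⟩, r, hr⟩ := g_val i j
  obtain ⟨h', hh1, ⟨v, hv, hh2⟩, r', hr'⟩ := h_val i' j' hij0'
  rw [← hg1] at hij
  rw [← hh1] at hij'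
  have a1 := abs_lt.1 hij
  have a2 := abs_lt.1 hij'
  have b1 : (0 : ℝ) < h' := by linarith
  have b2 : (h' : ℝ) < g' := by linarith
  have b1' : 0 < h' := by exact_mod_cast b1
  have b2' : h' < g' := by exact_mod_cast b2
  refine ⟨(g' + h') / 4, (g' - h') / 4, ?_, ?_, by linarith, by linarith, ?_, ?_, ⟨r, ?_⟩,
    ⟨r', ?_⟩⟩
  · have : (g' + h') / 4 = u + 2 * v := by
      rw [hg2, hh2]
      ring
    rw [this]
    exact Od_add_two hu hv
  · have : (g' - h') / 4 = u + 2 * (-v) := by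
      rw [hg2, hh2]
      ring
    rw [this]
    exact Od_add_two hu (Z2_neg hv)
  · have : (2 * (((g' + h') / 4 : ℚ) : ℝ) + 2 * (((g' - h') / 4 : ℚ) : ℝ)) = g' := by
      push_cast
      ring
    rw [this]
    exact hij.trans_le hδ1
  · have : (2 * (((g' + h') / 4 : ℚ) : ℝ) - 2 * (((g' - h') / 4 : ℚ) : ℝ)) = h' := by
      push_cast
      ring
    rw [this]
    exact hij'.trans_le hδ1
  · rw [← hr]
    ring
  · rw [← hr']
    ring

end RatApx

end
end

section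

/-!
# A3 : the translation preserves the curve and evenness
-/

noncomputable section

namespace RatApx

/-- The translation preserves the curve. -/
theorem CE_next {K : Type} [Field K] {α β t k : K} (h : CE α β t k)
    (h1 : β * k + α * t ^ 2 ≠ 0) (h2 : α - β * kN α β t k ≠ 0) :
    CE α β (tN α β t k) (kN α β t k) := by
  unfold CE at *
  have hth : th α β t k * (β * k + α * t ^ 2) = α * k + β * t ^ 2 := by
    unfold th
    exact div_mul_cancel₀ _ h1
  have hk : kN α β t k = k * th α β t k ^ 2 := rfl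
  have ht : tN α β t k * (α - β * kN α β t k) =
      t * th α β t k * (β - α * kN α β t k) := by
    unfold tN
    exact div_mul_cancel₀ _ h2
  set θ := th α β t k with hθ
  set k' := kN α β t k with hk'
  set t' := tN α β t k with ht'
  -- key identity : t² θ² (β - α k') + k' (α - β k') = k' t θ
  have key : t ^ 2 * θ ^ 2 * (β - α * k') + k' * (α - β * k') = k' * (t * θ) := by
    rw [hk]
    linear_combination (-(θ ^ 2) * (1 + k * θ)) * hth + θ ^ 3 * h
  have h3 : (α - β * k') * ((α - β * k') * t' ^ 2 - k' * (α * k' - β) - k' * t') = 0 := by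
    have e1 : (α - β * k') * ((α - β * k') * t' ^ 2 - k' * (α * k' - β) - k' * t') =
        (t' * (α - β * k')) ^ 2 - k' * (α * k' - β) * (α - β * k') -
          k' * (t' * (α - β * k')) := by ring
    rw [e1, ht]
    linear_combination (β - α * k') * key
  rcases mul_eq_zero.1 h3 with h4 | h4
  · exact absurd h4 h2
  · linear_combination h4

/-- denominators of the regular formula -/
theorem den_formula {α β t k : ℚ} (h : CE α β t k) (h1 : β * k + α * t ^ 2 ≠ 0) :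
    (α - β * kN α β t k) * (β * k + α * t ^ 2) ^ 2 =
      t * (α * β * k ^ 2 + α * β * k * (α - β * k) * t + (α ^ 3 - β ^ 3 * k) * t ^ 3) := by
  unfold CE at h
  have hth : th α β t k * (β * k + α * t ^ 2) = α * k + β * t ^ 2 := by
    unfold th
    exact div_mul_cancel₀ _ h1
  have hk : kN α β t k = k * th α β t k ^ 2 := rfl
  have e1 : kN α β t k * (β * k + α * t ^ 2) ^ 2 = k * (α * k + β * t ^ 2) ^ 2 := by
    rw [hk, ← hth]
    ring
  linear_combination (-β) * e1 + α * β * k * h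

theorem next_even {α β t k : ℚ} (hα : Od α) (hβ : Od β) (ht : Ev t) (hk : Od k)
    (h : CE α β t k) (h0 : t ≠ 0) : α - β * kN α β t k ≠ 0 ∧ Ev (tN α β t k) := by
  have hN := num_od hα hβ ht hk
  have hD := num_od hβ hα ht hk
  have hD0 := Od_ne hD
  have zα := Od_Z2 hα
  have zβ := Od_Z2 hβ
  have zk := Od_Z2 hk
  have zt := Ev_Z2 ht
  have hE : Od (α * β * k ^ 2 + α * β * k * (α - β * k) * t + (α ^ 3 - β ^ 3 * k) * t ^ 3) := by
    apply Od_add_Ev
    · apply Od_add_Ev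
      · rw [pow_two]
        exact Od_mul (Od_mul hα hβ) (Od_mul hk hk)
      · exact Ev_mul (Z2_mul (Z2_mul (Z2_mul zα zβ) zk) (Z2_sub zα (Z2_mul zβ zk))) ht
    · have : (α ^ 3 - β ^ 3 * k) * t ^ 3 = ((α ^ 3 - β ^ 3 * k) * t ^ 2) * t := by ring
      rw [this]
      exact Ev_mul (Z2_mul (Z2_sub (Z2_pow zα 3) (Z2_mul (Z2_pow zβ 3) zk)) (Z2_pow zt 2)) ht
  have hE0 := Od_ne hE
  have hf := den_formula h hD0
  have h2 : α - β * kN α β t k ≠ 0 := by
    intro h3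
    rw [h3, zero_mul] at hf
    exact (mul_ne_zero h0 hE0) hf.symm
  refine ⟨h2, ?_⟩
  have hth : th α β t k * (β * k + α * t ^ 2) = α * k + β * t ^ 2 := by
    unfold th
    exact div_mul_cancel₀ _ hD0
  have h4 : tN α β t k = ((α * k + β * t ^ 2) * (β * k + α * t ^ 2) /
      (α * β * k ^ 2 + α * β * k * (α - β * k) * t + (α ^ 3 - β ^ 3 * k) * t ^ 3)) *
      (β - α * kN α β t k) := by
    unfold tN
    rw [div_mul_eq_mul_div, div_eq_div_iff h2 hE0, ← hth]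
    linear_combination (-(th α β t k * (β - α * kN α β t k))) * hf
  rw [h4]
  apply Ev_mul
  · exact Od_Z2 (Od_div (Od_mul hN hD) hE)
  · exact Od_sub_Od hβ (Od_mul hα (kN_od hα hβ ht hk))

end RatApx

end
end

section

/-!
# A4 : the orbit
-/

noncomputable section

namespace RatApx

/-- The orbit `(t_n, k_n)`. -/
def orb (α β : ℚ) : ℕ → ℚ × ℚ
  | 0 => (0, β / α)
  | 1 => (-(α ^ 2 - β ^ 2) / β, α / β)
  | n + 2 => (tN α β (orb α β (n + 1)).1 (orb α β (n + 1)).2,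
      kN α β (orb α β (n + 1)).1 (orb α β (n + 1)).2)

/-- the basic facts about a point -/
structure QF (α β : ℚ) (P : ℚ × ℚ) : Prop where
  ce : CE α β P.1 P.2
  ev : Ev P.1
  od : Od P.2
  pos : 0 < P.2

variable {α β : ℚ}

theorem orb_k (hα : Od α) (hβ : Od β) (n : ℕ) :
    (orb α β (n + 1)).2 = kN α β (orb α β n).1 (orb α β n).2 := by
  have h1 := Od_ne hα
  have h2 := Od_ne hβ
  cases n with
  | zero =>
    simp only [orb, kN, th]
    field_simp
    ring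
  | succ n => rfl

theorem orb_t (n : ℕ) :
    (orb α β (n + 2)).1 = tN α β (orb α β (n + 1)).1 (orb α β (n + 1)).2 := rfl

theorem QF_zero (hα : Od α) (hβ : Od β) (h0 : 0 < β) (hab : β < α) : QF α β (orb α β 0) := by
  have h1 := Od_ne hα
  have h2 := Od_ne hβ
  refine ⟨?_, ?_, ?_, ?_⟩
  · simp only [orb, CE]
    field_simp
    ring
  · exact ⟨0, Z2_zero, by simp [orb]⟩
  · exact Od_div hβ hα
  · exact div_pos h0 (h0.trans hab)

theorem QF_one (hα : Od α) (hβ : Od β) (h0 : 0 < β) (hab : β < α) : QF α β (orb α β 1) := by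
  have h1 := Od_ne hα
  have h2 := Od_ne hβ
  refine ⟨?_, ?_, ?_, ?_⟩
  · simp only [orb, CE]
    field_simp
    ring
  · obtain ⟨u, hu, hu2⟩ := Od_sq hα
    obtain ⟨v, hv, hv2⟩ := Od_sq hβ
    refine ⟨-(4 * (u - v)) / β, ?_, ?_⟩
    · rw [div_eq_mul_inv]
      exact Z2_mul (Z2_neg (Z2_mul (by exact_mod_cast Z2_int 4) (Z2_sub hu hv)))
        (Od_Z2 (Od_inv hβ))
    · simp only [orb]
      rw [hu2, hv2]
      ring
  · exact Od_div hα hβ
  · exact div_pos (h0.trans hab) h0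

theorem QF_next (hα : Od α) (hβ : Od β) (h0 : 0 < β) (hab : β < α) (n : ℕ)
    (h : QF α β (orb α β (n + 1))) (ht : (orb α β (n + 1)).1 ≠ 0) :
    QF α β (orb α β (n + 2)) := by
  have hne := next_even hα hβ h.ev h.od h.ce ht
  have hD := num_od hβ hα h.ev h.od
  refine ⟨CE_next h.ce (Od_ne hD) hne.1, hne.2, kN_od hα hβ h.ev h.od, ?_⟩
  have hα0 : 0 < α := h0.trans hab
  have hθ := th_od hα hβ h.ev h.od
  have h3 : 0 < th α β (orb α β (n + 1)).1 (orb α β (n + 1)).2 ^ 2 := by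
    have := Od_ne hθ
    positivity
  exact mul_pos h.pos h3

theorem orb_shift (hα : Od α) (hβ : Od β) (i j : ℕ) (h : ∀ m < i + j, QF α β (orb α β m)) :
    ∃ u, Z2 u ∧ (orb α β (i + j)).2 - (orb α β j).2 = ((orb α β i).2 - β / α) * (1 + 8 * u) := by
  induction j with
  | zero =>
    refine ⟨0, Z2_zero, ?_⟩
    simp [orb]
  | succ j ih =>
    obtain ⟨u, hu, hu2⟩ := ih (fun m hm => h m (by omega))
    have h1 := h (i + j) (by omega)
    have h2 := h j (by omega)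
    obtain ⟨v, hv, hv2⟩ := diff_lemma hα hβ h1.ev h1.od h2.ev h2.od h1.ce h2.ce
    refine ⟨u + v + 8 * (u * v), Z2_add (Z2_add hu hv)
      (Z2_mul (by exact_mod_cast Z2_int 8) (Z2_mul hu hv)), ?_⟩
    rw [← add_assoc, orb_k hα hβ, orb_k hα hβ, hv2, hu2]
    ring

theorem orb_main (hα : Od α) (hβ : Od β) (h0 : 0 < β) (hab : β < α) (n : ℕ) :
    (∀ m ≤ n + 1, QF α β (orb α β m)) ∧
    (∀ m ≤ n + 1, 1 ≤ m → (orb α β m).1 ≠ 0 ∧
      ∃ u, Od u ∧ (orb α β m).2 - β / α = (α / β - β / α) * (m * u)) := by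
  have h1 := Od_ne hα
  have h2 := Od_ne hβ
  have hα0 : 0 < α := h0.trans hab
  have hab2 : α / β - β / α ≠ 0 := by
    rw [div_sub_div _ _ h2 h1]
    refine div_ne_zero ?_ (mul_ne_zero h2 h1)
    nlinarith
  induction n with
  | zero =>
    have q1 := QF_one hα hβ h0 hab
    refine ⟨?_, ?_⟩
    · intro m hm
      interval_cases m
      · exact QF_zero hα hβ h0 hab
      · exact q1
    · intro m hm hm1
      have : m = 1 := by omega
      subst this
      refine ⟨?_, 1, Od_one, ?_⟩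
      · simp only [orb]
        refine div_ne_zero ?_ h2
        nlinarith
      · simp [orb]
  | succ n ih =>
    obtain ⟨ihQ, ihR⟩ := ih
    have hq := QF_next hα hβ h0 hab n (ihQ (n + 1) le_rfl) (ihR (n + 1) le_rfl (by omega)).1
    have hQ : ∀ m ≤ n + 1 + 1, QF α β (orb α β m) := by
      intro m hm
      rcases Nat.lt_or_ge m (n + 2) with h | h
      · exact ihQ m (by omega)
      · have : m = n + 2 := by omega
        subst this
        exact hq
    refine ⟨hQ, ?_⟩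
    have hform : ∃ u, Od u ∧ (orb α β (n + 2)).2 - β / α =
        (α / β - β / α) * (((n + 2 : ℕ) : ℚ) * u) := by
      rcases Nat.even_or_odd' (n + 2) with ⟨i, hi | hi⟩
      · -- n + 2 = 2 i
        obtain ⟨-, u, hu, hu2⟩ := ihR i (by omega) (by omega)
        obtain ⟨v, hv, hv2⟩ := orb_shift hα hβ i i (fun m hm => ihQ m (by omega))
        refine ⟨u * (1 + 2 * (2 * v)), Od_mul hu ⟨2 * v, Z2_mul (by exact_mod_cast Z2_int 2) hv,
          rfl⟩, ?_⟩
        have e1 : n + 2 = i + i := by omega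
        have e2 : (((n + 2 : ℕ)) : ℚ) = i + i := by rw [e1]; push_cast; ring
        rw [e1] at *
        have e3 : (orb α β (i + i)).2 - β / α = ((orb α β i).2 - β / α) * (1 + 8 * v) +
            ((orb α β i).2 - β / α) := by
          rw [← hv2]
          ring
        rw [e3, hu2]
        push_cast
        ring
      · -- n + 2 = 2 i + 1
        have e0 : n + 1 = 2 * i := by omega
        obtain ⟨-, u, hu, hu2⟩ := ihR (2 * i) (by omega) (by omega)
        obtain ⟨v, hv, hv2⟩ := orb_shift hα hβ (2 * i) 1 (fun m hm => ihQ m (by omega))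
        have hodd : Od (((2 * i + 1 : ℕ)) : ℚ) := Od_natCast (by omega)
        have hw : Od (1 + 2 * ((i : ℚ) * u * (1 + 8 * v))) := by
          refine ⟨_, ?_, rfl⟩
          exact Z2_mul (Z2_mul (Z2_nat i) (Od_Z2 hu)) (Z2_add Z2_one
            (Z2_mul (by exact_mod_cast Z2_int 8) hv))
        refine ⟨(1 + 2 * ((i : ℚ) * u * (1 + 8 * v))) / (((2 * i + 1 : ℕ)) : ℚ),
          Od_div hw hodd, ?_⟩
        rw [hi, mul_div_cancel₀ _ (Od_ne hodd)]
        have e3 : (orb α β (2 * i + 1)).2 - β / α = ((orb α β (2 * i)).2 - β / α) * (1 + 8 * v) +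
            (α / β - β / α) := by
          rw [← hv2]
          simp only [orb]
          ring
        rw [e3, hu2]
        push_cast
        ring
    intro m hm hm1
    rcases Nat.lt_or_ge m (n + 2) with h | h
    · exact ihR m (by omega) hm1
    · have hmn : m = n + 2 := by omega
      subst hmn
      refine ⟨?_, hform⟩
      obtain ⟨u, hu, hu2⟩ := hform
      have hk : (orb α β (n + 2)).2 - β / α ≠ 0 := by
        rw [hu2]
        refine mul_ne_zero hab2 (mul_ne_zero ?_ (Od_ne hu))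
        positivity
      have hpr := ihQ (n + 1) le_rfl
      have ht := (ihR (n + 1) le_rfl (by omega)).1
      have hne := next_even hα hβ hpr.ev hpr.od hpr.ce ht
      rw [orb_t]
      unfold tN
      refine div_ne_zero (mul_ne_zero (mul_ne_zero ht (Od_ne (th_od hα hβ hpr.ev hpr.od))) ?_) hne.1
      intro h3
      apply hk
      have : (orb α β (n + 2)).2 = kN α β (orb α β (n + 1)).1 (orb α β (n + 1)).2 := rfl
      rw [this]
      field_simp
      linear_combination -h3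

theorem orb_QF (hα : Od α) (hβ : Od β) (h0 : 0 < β) (hab : β < α) (n : ℕ) :
    QF α β (orb α β n) := (orb_main hα hβ h0 hab n).1 n (by omega)

theorem orb_t_ne (hα : Od α) (hβ : Od β) (h0 : 0 < β) (hab : β < α) (n : ℕ) :
    (orb α β (n + 1)).1 ≠ 0 := ((orb_main hα hβ h0 hab n).2 (n + 1) le_rfl (by omega)).1

theorem orb_k_ne (hα : Od α) (hβ : Od β) (h0 : 0 < β) (hab : β < α) (n : ℕ) :
    (orb α β (n + 1)).2 - β / α ≠ 0 := by
  have h1 := Od_ne hα
  have h2 := Od_ne hβ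
  have hα0 : 0 < α := h0.trans hab
  have hab2 : α / β - β / α ≠ 0 := by
    rw [div_sub_div _ _ h2 h1]
    refine div_ne_zero ?_ (mul_ne_zero h2 h1)
    nlinarith
  obtain ⟨-, u, hu, hu2⟩ := (orb_main hα hβ h0 hab n).2 (n + 1) le_rfl (by omega)
  rw [hu2]
  refine mul_ne_zero hab2 (mul_ne_zero ?_ (Od_ne hu))
  positivity

theorem orb_inj (hα : Od α) (hβ : Od β) (h0 : 0 < β) (hab : β < α) :
    Function.Injective (fun n => (orb α β n).2) := by
  have key : ∀ i j : ℕ, i < j → (orb α β i).2 ≠ (orb α β j).2 := by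
    intro i j hij h
    obtain ⟨l, rfl⟩ : ∃ l, j = (l + 1) + i := ⟨j - i - 1, by omega⟩
    obtain ⟨u, hu, hu2⟩ := orb_shift hα hβ (l + 1) i (fun m _ => orb_QF hα hβ h0 hab m)
    have h3 : ((orb α β (l + 1)).2 - β / α) * (1 + 8 * u) = 0 := by
      rw [← hu2, h]
      ring
    rcases mul_eq_zero.1 h3 with h4 | h4
    · exact orb_k_ne hα hβ h0 hab l h4
    · have : Od (1 + 8 * u) := ⟨4 * u, Z2_mul (by exact_mod_cast Z2_int 4) hu, by ring⟩
      exact Od_ne this h4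
  intro i j h
  rcases lt_trichotomy i j with h1 | h1 | h1
  · exact absurd h (key i j h1)
  · exact h1
  · exact absurd h.symm (key j i h1)

end RatApx

end
end

section

/-!
# A5 : rational points
-/

noncomputable section

namespace RatApx

theorem CE_x {K : Type} [Field K] {α β t k : K} (h : CE α β t k) (ht : t ≠ 0) (hk : k ≠ 0) :
    xc α t k - 1 = β * (t - 1 / t) := by
  unfold CE at h
  unfold xc
  field_simp
  linear_combination h

theorem CE_Good {α β t k : ℚ} (h : CE α β t k) (ht : t ≠ 0) (hk : k ≠ 0) :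
    Good (2 * α) (2 * β) (xc α t k) := by
  refine ⟨⟨α * (t / k + k / t), ?_⟩, ⟨β * (t + 1 / t), ?_⟩⟩
  · unfold xc
    field_simp
    ring
  · rw [CE_x h ht hk]
    field_simp
    ring

theorem even_cancel {t t' : ℚ} (ht : Ev t) (ht' : Ev t') (h0 : t ≠ 0) (h0' : t' ≠ 0)
    (h : t - 1 / t = t' - 1 / t') : t = t' := by
  have h1 : (t - t') * (t * t' + 1) = 0 := by
    field_simp at h
    linear_combination h
  rcases mul_eq_zero.1 h1 with h2 | h2
  · linear_combination h2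
  · have : Od (t * t' + 1) := by
      rw [add_comm]
      exact Od_add_Ev Od_one (Ev_mul (Ev_Z2 ht) ht')
    exact absurd h2 (Od_ne this)

theorem xc_inj {α β t k t' k' : ℚ} (hα : Od α) (hβ : Od β) (ht : Ev t) (hk : Od k)
    (ht' : Ev t') (hk' : Od k') (h : CE α β t k) (h' : CE α β t' k') (h0 : t ≠ 0) (h0' : t' ≠ 0)
    (hx : xc α t k = xc α t' k') : k = k' := by
  have k0 := Od_ne hk
  have k0' := Od_ne hk'
  have α0 := Od_ne hα
  have β0 := Od_ne hβ
  have e1 := CE_x h h0 k0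
  have e2 := CE_x h' h0' k0'
  have e3 : t = t' := by
    apply even_cancel ht ht' h0 h0'
    apply mul_left_cancel₀ β0
    rw [← e1, ← e2, hx]
  have e4 : t / k = t' / k' := by
    apply even_cancel
    · rw [div_eq_mul_inv, mul_comm]
      exact Ev_mul (Od_Z2 (Od_inv hk)) ht
    · rw [div_eq_mul_inv, mul_comm]
      exact Ev_mul (Od_Z2 (Od_inv hk')) ht'
    · exact div_ne_zero h0 k0
    · exact div_ne_zero h0' k0'
    · apply mul_left_cancel₀ α0
      rw [one_div_div, one_div_div]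
      exact hx
  rw [e3] at e4
  field_simp at e4
  exact e4.symm

/-- the orbit on the line -/
def xo (α β : ℚ) (n : ℕ) : ℚ := xc α (orb α β (n + 1)).1 (orb α β (n + 1)).2

theorem xo_good {α β : ℚ} (hα : Od α) (hβ : Od β) (h0 : 0 < β) (hab : β < α) (n : ℕ) :
    Good (2 * α) (2 * β) (xo α β n) := by
  have q := orb_QF hα hβ h0 hab (n + 1)
  exact CE_Good q.ce (orb_t_ne hα hβ h0 hab n) (Od_ne q.od)

theorem xo_inj {α β : ℚ} (hα : Od α) (hβ : Od β) (h0 : 0 < β) (hab : β < α) :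
    Function.Injective (xo α β) := by
  intro i j h
  have qi := orb_QF hα hβ h0 hab (i + 1)
  have qj := orb_QF hα hβ h0 hab (j + 1)
  have h1 := xc_inj hα hβ qi.ev qi.od qj.ev qj.od qi.ce qj.ce (orb_t_ne hα hβ h0 hab i)
    (orb_t_ne hα hβ h0 hab j) h
  have h2 := orb_inj hα hβ h0 hab h1
  omega

end RatApx

end
end

section

/-!
# B5 : the reflections on the curve

`s = t / k`, `m = s t = t²/k`, `θ = (α + β m)/(β + α m)`.
-/

noncomputable section

namespace RatApx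

variable {α β t k : ℝ}

theorem xc_vv (hα : 0 < α) (hβ : 0 < β) (h : CE α β t k) (ht : t ≠ 0) (hk : 0 < k) :
    vv (2 * α) (2 * β) (xc α t k) = α * β * (t / k + k / t) * (t + 1 / t) := by
  have h1 := CE_x h ht hk.ne'
  unfold vv
  rw [h1]
  have h2 : (xc α t k ^ 2 + (2 * α) ^ 2) * ((β * (t - 1 / t)) ^ 2 + (2 * β) ^ 2) =
      (α * β * (t / k + k / t) * (t + 1 / t)) ^ 2 := by
    unfold xc
    field_simp
    ring
  rw [h2]
  apply Real.sqrt_sq
  have h3 : α * β * (t / k + k / t) * (t + 1 / t) =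
      α * β * ((t ^ 2 + k ^ 2) * (t ^ 2 + 1) / (k * t ^ 2)) := by
    field_simp
  rw [h3]
  positivity

/-- `B + v` on the curve -/
theorem xc_UU (hα : 0 < α) (hβ : 0 < β) (h : CE α β t k) (ht : t ≠ 0) (hk : 0 < k) :
    BB (2 * α) (2 * β) (xc α t k) + vv (2 * α) (2 * β) (xc α t k) =
      2 * (α * t ^ 2 + β * k) * (α * k + β * t ^ 2) / (k * t ^ 2) := by
  rw [xc_vv hα hβ h ht hk]
  have h1 := CE_x h ht hk.ne'
  have h2 : BB (2 * α) (2 * β) (xc α t k) =
      xc α t k * (xc α t k - 1) + 2 * α ^ 2 + 2 * β ^ 2 := by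
    unfold BB
    ring
  rw [h2, h1]
  unfold xc
  field_simp
  ring

/-- `B - v` on the curve -/
theorem xc_HH (hα : 0 < α) (hβ : 0 < β) (h : CE α β t k) (ht : t ≠ 0) (hk : 0 < k) :
    BB (2 * α) (2 * β) (xc α t k) - vv (2 * α) (2 * β) (xc α t k) =
      2 * (α - β * k) * (α * k - β) / k := by
  rw [xc_vv hα hβ h ht hk]
  have h1 := CE_x h ht hk.ne'
  have h2 : BB (2 * α) (2 * β) (xc α t k) =
      xc α t k * (xc α t k - 1) + 2 * α ^ 2 + 2 * β ^ 2 := by
    unfold BB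
    ring
  rw [h2, h1]
  unfold xc
  field_simp
  ring

/-- first reflection on the curve -/
theorem xc_i2 (hα : 0 < α) (hβ : 0 < β) (h : CE α β t k) (ht : t ≠ 0) (hk : 0 < k) :
    i2 (2 * α) (2 * β) (xc α t k) =
      xc α (-t / (k * th α β t k)) (1 / (k * th α β t k ^ 2)) := by
  unfold i2
  rw [xc_UU hα hβ h ht hk]
  have e1 : 0 < α * t ^ 2 + β * k := by positivity
  have e2 : 0 < α * k + β * t ^ 2 := by positivity
  have e4 : th α β t k = (α * k + β * t ^ 2) / (α * t ^ 2 + β * k) := by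
    unfold th
    rw [add_comm (β * k)]
  have h1 : xc α t k - β * (t - 1 / t) = 1 := by
    rw [← CE_x h ht hk.ne']
    ring
  have h2 : 1 - xc α t k = - (β * (t - 1 / t)) := by
    linear_combination -h1
  have key : -β * (t ^ 2 - 1) * (α * t ^ 2 + β * k) * (α * k + β * t ^ 2) +
      (α ^ 2 - β ^ 2) * k * t ^ 3 =
      α * ((α * t ^ 2 + β * k) ^ 2 - t ^ 2 * (α * k + β * t ^ 2) ^ 2) := by
    unfold CE at h
    linear_combination (-(α ^ 2 - β ^ 2) * t ^ 2) * h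
  rw [h2, e4]
  unfold xc dl
  generalize α * t ^ 2 + β * k = N1 at *
  generalize α * k + β * t ^ 2 = N2 at *
  have f1 : -(β * (t - 1 / t)) + ((2 * α) ^ 2 - (2 * β) ^ 2) / 2 / (2 * N1 * N2 / (k * t ^ 2)) =
      (-β * (t ^ 2 - 1) * N1 * N2 + (α ^ 2 - β ^ 2) * k * t ^ 3) / (t * N1 * N2) := by
    have := e1.ne'
    have := e2.ne'
    field_simp
    try ring
  have f2 : α * (-t / (k * (N2 / N1)) / (1 / (k * (N2 / N1) ^ 2)) -
      1 / (k * (N2 / N1) ^ 2) / (-t / (k * (N2 / N1)))) =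
      α * (N1 ^ 2 - t ^ 2 * N2 ^ 2) / (t * N1 * N2) := by
    have := e1.ne'
    have := e2.ne'
    field_simp
    ring
  rw [f1, f2, key]

/-- the image is on the curve -/
theorem CE_i2 (hα : 0 < α) (hβ : 0 < β) (h : CE α β t k) (hk : 0 < k) :
    CE α β (-t / (k * th α β t k)) (1 / (k * th α β t k ^ 2)) := by
  have e1 : 0 < α * t ^ 2 + β * k := by positivity
  have e2 : 0 < α * k + β * t ^ 2 := by positivity
  have e4 : th α β t k * (α * t ^ 2 + β * k) = α * k + β * t ^ 2 := by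
    unfold th
    rw [add_comm (β * k)]
    exact div_mul_cancel₀ _ e1.ne'
  have e5 : th α β t k ≠ 0 := by
    intro h0
    rw [h0, zero_mul] at e4
    exact e2.ne e4
  generalize th α β t k = θ at *
  unfold CE at *
  have key : (α * (k * θ ^ 2) - β) * t ^ 2 - k * (α - β * (k * θ ^ 2)) = -(t * k * θ) := by
    linear_combination (k * θ + 1) * e4 + (-θ) * h
  have f1 : (α - β * (1 / (k * θ ^ 2))) * (-t / (k * θ)) ^ 2 -
      1 / (k * θ ^ 2) * (α * (1 / (k * θ ^ 2)) - β) =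
      ((α * (k * θ ^ 2) - β) * t ^ 2 - k * (α - β * (k * θ ^ 2))) / (k ^ 3 * θ ^ 4) := by
    field_simp
    try ring
  have f2 : 1 / (k * θ ^ 2) * (-t / (k * θ)) = -(t * k * θ) / (k ^ 3 * θ ^ 4) := by
    field_simp
    try ring
  rw [f1, f2, key]

/-- second reflection on the curve -/
theorem xc_i1 (hα : 0 < α) (hβ : 0 < β) (h : CE α β t k) (ht : t ≠ 0) (hk : 0 < k)
    (h1 : α - β * k ≠ 0) (h2 : α * k - β ≠ 0) :
    i1 (2 * α) (2 * β) (xc α t k) =
      α * (-(α * k - β) / (t * (α - β * k)) - (t * (α - β * k)) / (-(α * k - β))) := by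
  unfold i1
  rw [xc_HH hα hβ h ht hk]
  have h3 : xc α t k - β * (t - 1 / t) = 1 := by
    rw [← CE_x h ht hk.ne']
    ring
  have h4 : 1 - xc α t k = - (β * (t - 1 / t)) := by
    linear_combination -h3
  have key : -β * t ^ 2 * (α - β * k) * (α * k - β) + β * (α - β * k) * (α * k - β) +
      (α ^ 2 - β ^ 2) * k * t = α * (-(α * k - β) ^ 2 + t ^ 2 * (α - β * k) ^ 2) := by
    unfold CE at h
    linear_combination (-(α ^ 2 - β ^ 2)) * h
  rw [h4]
  unfold dl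
  generalize α - β * k = A at *
  generalize α * k - β = C at *
  have f1 : -(β * (t - 1 / t)) + ((2 * α) ^ 2 - (2 * β) ^ 2) / 2 / (2 * A * C / k) =
      (-β * t ^ 2 * A * C + β * A * C + (α ^ 2 - β ^ 2) * k * t) / (t * A * C) := by
    field_simp
    ring
  have f2 : α * (-C / (t * A) - (t * A) / (-C)) =
      α * (-C ^ 2 + t ^ 2 * A ^ 2) / (t * A * C) := by
    field_simp
    ring
  rw [f1, f2, key]

/-- the composition -/
theorem xc_rot (hα : 0 < α) (hβ : 0 < β) (hab : β < α) (h : CE α β t k) (ht : t ≠ 0) (hk : 0 < k)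
    (h1 : α - β * kN α β t k ≠ 0) (h2 : β - α * kN α β t k ≠ 0) :
    i2 (2 * α) (2 * β) (xc α t k) ≠ xp (2 * α) (2 * β) ∧
    i1 (2 * α) (2 * β) (i2 (2 * α) (2 * β) (xc α t k)) = xc α (tN α β t k) (kN α β t k) := by
  have e1 : 0 < α * t ^ 2 + β * k := by positivity
  have e2 : 0 < α * k + β * t ^ 2 := by positivity
  have e5 : 0 < th α β t k := by
    unfold th
    rw [add_comm (β * k)]
    positivity
  have hkN : kN α β t k = k * th α β t k ^ 2 := rfl
  have hkN0 : 0 < kN α β t k := by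
    rw [hkN]
    positivity
  have hc := CE_i2 hα hβ h hk
  have ht2 : -t / (k * th α β t k) ≠ 0 := by
    refine div_ne_zero (neg_ne_zero.2 ht) (by positivity)
  have hk2 : 0 < 1 / (k * th α β t k ^ 2) := by positivity
  rw [← hkN] at hc hk2
  have g1 : α - β * (1 / kN α β t k) ≠ 0 := by
    intro h3
    apply h2
    field_simp at h3
    linear_combination -h3
  have g2 : α * (1 / kN α β t k) - β ≠ 0 := by
    intro h3
    apply h1
    field_simp at h3
    linear_combination h3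
  rw [xc_i2 hα hβ h ht hk, ← hkN]
  constructor
  · intro h3
    have h4 := xc_HH hα hβ hc ht2 hk2
    rw [h3, HH_zero (by positivity) (by positivity) (by linarith)] at h4
    have h5 : 2 * (α - β * (1 / kN α β t k)) * (α * (1 / kN α β t k) - β) /
        (1 / kN α β t k) ≠ 0 :=
      div_ne_zero (mul_ne_zero (mul_ne_zero two_ne_zero g1) g2) hk2.ne'
    exact h5 h4.symm
  · rw [xc_i1 hα hβ hc ht2 hk2 g1 g2]
    have g3 : α - β * (k * th α β t k ^ 2) ≠ 0 := by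
      rw [← hkN]
      exact h1
    have g4 : β - α * (k * th α β t k ^ 2) ≠ 0 := by
      rw [← hkN]
      exact h2
    unfold xc tN
    rw [hkN]
    clear h1 h2 hkN hkN0 hc ht2 hk2 g1 g2
    generalize th α β t k = θ at *
    have q1 : -(α * (1 / (k * θ ^ 2)) - β) / (-t / (k * θ) * (α - β * (1 / (k * θ ^ 2)))) =
        -(k * θ ^ 2 / (t * θ * (β - α * (k * θ ^ 2)) / (α - β * (k * θ ^ 2)))) := by
      have g5 : α - β * (1 / (k * θ ^ 2)) = -(β - α * (k * θ ^ 2)) / (k * θ ^ 2) := by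
        field_simp
        try ring
      rw [g5]
      field_simp
      try ring
    have q2 : -t / (k * θ) * (α - β * (1 / (k * θ ^ 2))) / -(α * (1 / (k * θ ^ 2)) - β) =
        -(t * θ * (β - α * (k * θ ^ 2)) / (α - β * (k * θ ^ 2)) / (k * θ ^ 2)) := by
      have g5 : -(α * (1 / (k * θ ^ 2)) - β) = -(α - β * (k * θ ^ 2)) / (k * θ ^ 2) := by
        field_simp
      rw [g5]
      field_simp
      try ring
    rw [q1, q2]
    ring

end RatApx

end
end

section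

/-!
# C2 : the rational points are dense
-/

noncomputable section

namespace RatApx

theorem CE_cast {α β t k : ℚ} (h : CE α β t k) : CE (α : ℝ) (β : ℝ) (t : ℝ) (k : ℝ) := by
  unfold CE at *
  exact_mod_cast h

theorem th_cast (α β t k : ℚ) : th (α : ℝ) (β : ℝ) (t : ℝ) (k : ℝ) = ((th α β t k : ℚ) : ℝ) := by
  unfold th
  push_cast
  ring

theorem kN_cast (α β t k : ℚ) : kN (α : ℝ) (β : ℝ) (t : ℝ) (k : ℝ) = ((kN α β t k : ℚ) : ℝ) := by
  unfold kN
  rw [th_cast]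
  push_cast
  ring

theorem tN_cast (α β t k : ℚ) : tN (α : ℝ) (β : ℝ) (t : ℝ) (k : ℝ) = ((tN α β t k : ℚ) : ℝ) := by
  unfold tN
  rw [th_cast, kN_cast]
  push_cast
  ring

theorem xc_cast (α t k : ℚ) : xc (α : ℝ) (t : ℝ) (k : ℝ) = ((xc α t k : ℚ) : ℝ) := by
  unfold xc
  push_cast
  ring

/-- The good abscissas are dense. -/
theorem good_dense {α β : ℚ} (hα : Od α) (hβ : Od β) (h0 : 0 < β) (hab : β < α) (y ε : ℝ)
    (hε : 0 < ε) : ∃ r : ℚ, Good (2 * α) (2 * β) r ∧ |(r : ℝ) - y| < ε := by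
  have hβ' : (0 : ℝ) < β := by exact_mod_cast h0
  have hab' : (β : ℝ) < α := by exact_mod_cast hab
  have hα' : (0 : ℝ) < α := hβ'.trans hab'
  have ha : (0 : ℝ) < 2 * α := by positivity
  have hb : (0 : ℝ) < 2 * β := by positivity
  have hab2 : (2 : ℝ) * β < 2 * α := by linarith
  obtain ⟨F, M, hF⟩ := exists_F ha hb
  have hinj : Function.Injective (fun n => ((xo α β n : ℚ) : ℝ)) := by
    intro i j h
    have h' : ((xo α β i : ℚ) : ℝ) = ((xo α β j : ℚ) : ℝ) := h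
    exact xo_inj hα hβ h0 hab (by exact_mod_cast h')
  obtain ⟨n, hn⟩ := dense_of_rot (hF.strictMono ha hb) (hF.pos ha hb) (hF.lt ha hb)
    (fun n => ((xo α β n : ℚ) : ℝ)) hinj (c := F (xp (2 * α) (2 * β))) (by
      intro n
      have q := orb_QF hα hβ h0 hab (n + 1)
      have q2 := orb_QF hα hβ h0 hab (n + 2)
      have ht := orb_t_ne hα hβ h0 hab n
      have hk : (0 : ℝ) < (orb α β (n + 1)).2 := by exact_mod_cast q.pos
      have hne := next_even hα hβ q.ev q.od q.ce ht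
      have h2 : β - α * kN α β (orb α β (n + 1)).1 (orb α β (n + 1)).2 ≠ 0 := by
        intro h3
        have h4 := orb_k_ne hα hβ h0 hab (n + 1)
        apply h4
        have h5 : (orb α β (n + 1 + 1)).2 = kN α β (orb α β (n + 1)).1 (orb α β (n + 1)).2 := rfl
        rw [h5]
        have := Od_ne hα
        field_simp
        linear_combination -h3
      have hrot := xc_rot hα' hβ' hab' (CE_cast q.ce) (by exact_mod_cast ht) hk
        (by rw [kN_cast]; exact_mod_cast hne.1) (by rw [kN_cast]; exact_mod_cast h2)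
      obtain ⟨j, hj⟩ := F_rot ha hb hab2 hF hrot.1
      refine ⟨j, ?_⟩
      rw [hrot.2, kN_cast, tN_cast, xc_cast, xc_cast] at hj
      exact hj) y ε hε
  exact ⟨xo α β n, xo_good hα hβ h0 hab n, hn⟩

end RatApx

end
end

section

/-!
# D2 : line plus four points, in coordinates
-/

noncomputable section

namespace RatApx

/-- The rational configuration: good abscissas, `(0, ± a)`, `(1, ± b)`. -/
def YY (a b : ℚ) : Set (ℚ × ℚ) :=
  {u | (u.2 = 0 ∧ Good a b u.1) ∨ (u.1 = 0 ∧ (u.2 = a ∨ u.2 = -a)) ∨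
    (u.1 = 1 ∧ (u.2 = b ∨ u.2 = -b))}

theorem YY_rat {a b : ℚ} (h1 : ∃ r : ℚ, 1 + (a + b) ^ 2 = r ^ 2)
    (h2 : ∃ r : ℚ, 1 + (a - b) ^ 2 = r ^ 2) :
    ∀ u ∈ YY a b, ∀ w ∈ YY a b, ∃ ρ : ℚ, (u.1 - w.1) ^ 2 + (u.2 - w.2) ^ 2 = ρ ^ 2 := by
  obtain ⟨r1, h1⟩ := h1
  obtain ⟨r2, h2⟩ := h2
  rintro ⟨x, y⟩ hu ⟨x', y'⟩ hw
  simp only [YY, Set.mem_ofPred_eq] at hu hw
  simp only
  rcases hu with ⟨rfl, ⟨⟨r, hr⟩, ⟨s, hs⟩⟩⟩ | ⟨rfl, hy⟩ | ⟨rfl, hy⟩
  · rcases hw with ⟨rfl, ⟨⟨r', hr'⟩, ⟨s', hs'⟩⟩⟩ | ⟨rfl, hy'⟩ | ⟨rfl, hy'⟩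
    · exact ⟨x - x', by ring⟩
    · refine ⟨r, ?_⟩
      rcases hy' with rfl | rfl <;> linear_combination hr
    · refine ⟨s, ?_⟩
      rcases hy' with rfl | rfl <;> linear_combination hs
  · rcases hw with ⟨rfl, ⟨⟨r', hr'⟩, ⟨s', hs'⟩⟩⟩ | ⟨rfl, hy'⟩ | ⟨rfl, hy'⟩
    · refine ⟨r', ?_⟩
      rcases hy with rfl | rfl <;> linear_combination hr'
    · exact ⟨y - y', by ring⟩
    · rcases hy with rfl | rfl <;> rcases hy' with rfl | rfl
      · exact ⟨r2, by linear_combination h2⟩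
      · exact ⟨r1, by linear_combination h1⟩
      · exact ⟨r1, by linear_combination h1⟩
      · exact ⟨r2, by linear_combination h2⟩
  · rcases hw with ⟨rfl, ⟨⟨r', hr'⟩, ⟨s', hs'⟩⟩⟩ | ⟨rfl, hy'⟩ | ⟨rfl, hy'⟩
    · refine ⟨s', ?_⟩
      rcases hy with rfl | rfl <;> linear_combination hs'
    · rcases hy with rfl | rfl <;> rcases hy' with rfl | rfl
      · exact ⟨r2, by linear_combination h2⟩
      · exact ⟨r1, by linear_combination h1⟩
      · exact ⟨r1, by linear_combination h1⟩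
      · exact ⟨r2, by linear_combination h2⟩
    · exact ⟨y - y', by ring⟩

/-- A set of `ℝ × ℝ` with rational (Euclidean) distances. -/
def Rat2 (X : Set (ℝ × ℝ)) : Prop :=
  ∀ u ∈ X, ∀ w ∈ X, ∃ ρ : ℚ, (u.1 - w.1) ^ 2 + (u.2 - w.2) ^ 2 = (ρ : ℝ) ^ 2

/-- the conclusion for the line -/
def LineConf (p1 p2 q1 q2 ε : ℝ) : Prop :=
  ∃ X : Set (ℝ × ℝ), Rat2 X ∧ (∀ x : ℝ, ∃ t, |t - x| < ε ∧ ((t, 0) : ℝ × ℝ) ∈ X) ∧
    (∃ u : ℝ × ℝ, |u.1 - p1| + |u.2 - p2| < ε ∧ u ∈ X ∧ (u.1, -u.2) ∈ X) ∧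
    (∃ u : ℝ × ℝ, |u.1 - q1| + |u.2 - q2| < ε ∧ u ∈ X ∧ (u.1, -u.2) ∈ X)

theorem line_conf_ge {p1 p2 q1 q2 ε : ℝ} (hε : 0 < ε) (hpq : |q2| ≤ |p2|) :
    LineConf p1 p2 q1 q2 ε := by
  -- the scale
  obtain ⟨l, hl1, hl2⟩ := exists_rat_btwn (show |q1 - p1| < |q1 - p1| + ε / 4 by linarith)
  have hl0 : (0 : ℝ) < l := lt_of_le_of_lt (abs_nonneg _) hl1
  have hlQ : (0 : ℚ) < l := by exact_mod_cast hl0
  -- target
  set A : ℝ := (|p2| + ε / 8) / l with hA
  set B : ℝ := (|q2| + ε / 16) / l with hB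
  have hB0 : 0 < B := div_pos (by have := abs_nonneg q2; linarith) hl0
  have hAB : B < A := div_lt_div_of_pos_right (by linarith) hl0
  have hlA : l * A = |p2| + ε / 8 := by
    rw [hA]
    field_simp
  have hlB : l * B = |q2| + ε / 16 := by
    rw [hB]
    field_simp
  obtain ⟨α, β, hα, hβ, h0, hab, c1, c2, hr1, hr2⟩ := params (g := A + B) (h := A - B)
    (by linarith) (by linarith) (ε := ε / (8 * l)) (by positivity)
  have c1' := abs_lt.1 c1
  have c2' := abs_lt.1 c2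
  have hεl : ε / (8 * l) * l = ε / 8 := by field_simp
  have ea : |l * (2 * α) - (|p2|)| < ε / 2 := by
    have e1 : |(2 * α : ℝ) - A| < ε / (8 * l) := by
      rw [abs_lt]
      constructor <;> linarith
    have e2 : |((2 * α : ℝ) - A) * l| < ε / 8 := by
      rw [abs_mul, abs_of_pos hl0, ← hεl]
      exact mul_lt_mul_of_pos_right e1 hl0
    have e3 := abs_lt.1 e2
    rw [abs_lt]
    constructor <;> nlinarith
  have eb : |l * (2 * β) - (|q2|)| < ε / 2 := by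
    have e1 : |(2 * β : ℝ) - B| < ε / (8 * l) := by
      rw [abs_lt]
      constructor <;> linarith
    have e2 : |((2 * β : ℝ) - B) * l| < ε / 8 := by
      rw [abs_mul, abs_of_pos hl0, ← hεl]
      exact mul_lt_mul_of_pos_right e1 hl0
    have e3 := abs_lt.1 e2
    rw [abs_lt]
    constructor <;> nlinarith
  -- the sign
  obtain ⟨s, hs2, hs⟩ : ∃ s : ℝ, s ^ 2 = 1 ∧ q1 - p1 = s * |q1 - p1| := by
    rcases le_total 0 (q1 - p1) with h | h
    · exact ⟨1, by norm_num, by rw [abs_of_nonneg h]; ring⟩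
    · exact ⟨-1, by norm_num, by rw [abs_of_nonpos h]; ring⟩
  have hs1 : |s| = 1 := by
    have : |s| ^ 2 = 1 := by rw [sq_abs, hs2]
    nlinarith [abs_nonneg s]
  set Φ : ℚ × ℚ → ℝ × ℝ := fun u => (p1 + s * l * u.1, l * u.2) with hΦ
  refine ⟨Φ '' YY (2 * α) (2 * β), ?_, ?_, ?_, ?_⟩
  · rintro _ ⟨u, hu, rfl⟩ _ ⟨w, hw, rfl⟩
    obtain ⟨ρ, hρ⟩ := YY_rat (by simpa [mul_add] using hr1) (by simpa [mul_sub] using hr2) u hu w hw
    refine ⟨l * ρ, ?_⟩
    have hρ' : ((u.1 : ℝ) - w.1) ^ 2 + ((u.2 : ℝ) - w.2) ^ 2 = (ρ : ℝ) ^ 2 := by exact_mod_cast hρ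
    simp only [hΦ]
    push_cast
    linear_combination (l : ℝ) ^ 2 * hρ' + (l : ℝ) ^ 2 * ((u.1 : ℝ) - w.1) ^ 2 * hs2
  · intro x
    obtain ⟨r, hr, hr'⟩ := good_dense hα hβ h0 hab (s * (x - p1) / l) (ε / l) (by positivity)
    refine ⟨p1 + s * l * r, ?_, ?_⟩
    · have e1 : p1 + s * l * r - x = s * l * (r - s * (x - p1) / l) := by
        field_simp
        linear_combination (x - p1) * hs2
      rw [e1, abs_mul, abs_mul, hs1, one_mul, abs_of_pos hl0]
      calc (l : ℝ) * |(r : ℝ) - s * (x - p1) / l| < l * (ε / l) :=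
            mul_lt_mul_of_pos_left hr' hl0
        _ = ε := by field_simp
    · refine ⟨(r, 0), Or.inl ⟨rfl, hr⟩, ?_⟩
      simp [hΦ]
  · rcases le_total 0 p2 with h | h
    · refine ⟨(p1, l * (2 * α)), ?_, ⟨(0, 2 * α), Or.inr (Or.inl ⟨rfl, Or.inl rfl⟩), ?_⟩,
        ⟨(0, -(2 * α)), Or.inr (Or.inl ⟨rfl, Or.inr rfl⟩), ?_⟩⟩
      · rw [abs_of_nonneg h] at ea
        simp only [sub_self, abs_zero, zero_add]
        linarith
      · simp [hΦ]
      · simp [hΦ]
    · refine ⟨(p1, -(l * (2 * α))), ?_, ⟨(0, -(2 * α)), Or.inr (Or.inl ⟨rfl, Or.inr rfl⟩), ?_⟩,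
        ⟨(0, 2 * α), Or.inr (Or.inl ⟨rfl, Or.inl rfl⟩), ?_⟩⟩
      · rw [abs_of_nonpos h] at ea
        simp only [sub_self, abs_zero, zero_add]
        rw [← abs_neg]
        have : -(-((l : ℝ) * (2 * α)) - p2) = l * (2 * α) - -p2 := by ring
        rw [this]
        linarith
      · simp [hΦ]
      · simp [hΦ]
  · have e1 : |p1 + s * l - q1| < ε / 2 := by
      have : p1 + s * l - q1 = s * (l - |q1 - p1|) := by
        linear_combination -hs
      rw [this, abs_mul, hs1, one_mul, abs_lt]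
      constructor <;> linarith
    rcases le_total 0 q2 with h | h
    · refine ⟨(p1 + s * l, l * (2 * β)), ?_, ⟨(1, 2 * β), Or.inr (Or.inr ⟨rfl, Or.inl rfl⟩), ?_⟩,
        ⟨(1, -(2 * β)), Or.inr (Or.inr ⟨rfl, Or.inr rfl⟩), ?_⟩⟩
      · rw [abs_of_nonneg h] at eb
        simp only
        linarith
      · simp [hΦ]
      · simp [hΦ]
    · refine ⟨(p1 + s * l, -(l * (2 * β))), ?_,
        ⟨(1, -(2 * β)), Or.inr (Or.inr ⟨rfl, Or.inr rfl⟩), ?_⟩,
        ⟨(1, 2 * β), Or.inr (Or.inr ⟨rfl, Or.inl rfl⟩), ?_⟩⟩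
      · rw [abs_of_nonpos h] at eb
        simp only
        have : |(-((l : ℝ) * (2 * β)) - q2)| = |l * (2 * β) - -q2| := by
          rw [← abs_neg]
          congr 1
          ring
        rw [this]
        linarith
      · simp [hΦ]
      · simp [hΦ]

theorem line_conf (p1 p2 q1 q2 : ℝ) {ε : ℝ} (hε : 0 < ε) : LineConf p1 p2 q1 q2 ε := by
  rcases le_total |q2| |p2| with h | h
  · exact line_conf_ge hε h
  · obtain ⟨X, h1, h2, h3, h4⟩ := line_conf_ge (p1 := q1) (p2 := q2) (q1 := p1) (q2 := p2) hε h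
    exact ⟨X, h1, h2, h4, h3⟩

end RatApx

end
end

section

/-!
# D3 : frames of the Euclidean plane
-/

noncomputable section

namespace RatApx

/-- the point with coordinates `u` in the frame `(o; e, f)`, `f` = `e` turned by 90 degrees -/
def fr (o e : E2) (u : ℝ × ℝ) : E2 :=
  !₂[o 0 + u.1 * e 0 - u.2 * e 1, o 1 + u.1 * e 1 + u.2 * e 0]

theorem fr_zero (o e : E2) (u : ℝ × ℝ) : fr o e u 0 = o 0 + u.1 * e 0 - u.2 * e 1 := rfl

theorem fr_one (o e : E2) (u : ℝ × ℝ) : fr o e u 1 = o 1 + u.1 * e 1 + u.2 * e 0 := rfl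

theorem fr_dist {o e : E2} (he : e 0 ^ 2 + e 1 ^ 2 = 1) (u w : ℝ × ℝ) :
    dist (fr o e u) (fr o e w) = Real.sqrt ((u.1 - w.1) ^ 2 + (u.2 - w.2) ^ 2) := by
  rw [EuclideanSpace.dist_eq, Fin.sum_univ_two]
  congr 1
  rw [Real.dist_eq, Real.dist_eq, sq_abs, sq_abs, fr_zero, fr_zero, fr_one, fr_one]
  linear_combination ((u.1 - w.1) ^ 2 + (u.2 - w.2) ^ 2) * he

theorem fr_dist_le {o e : E2} (he : e 0 ^ 2 + e 1 ^ 2 = 1) (u w : ℝ × ℝ) :
    dist (fr o e u) (fr o e w) ≤ |u.1 - w.1| + |u.2 - w.2| := by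
  rw [fr_dist he]
  apply Real.sqrt_le_iff.2
  refine ⟨by positivity, ?_⟩
  have h1 := sq_abs (u.1 - w.1)
  have h2 := sq_abs (u.2 - w.2)
  have h3 := mul_nonneg (abs_nonneg (u.1 - w.1)) (abs_nonneg (u.2 - w.2))
  nlinarith

theorem fr_surj {o e : E2} (he : e 0 ^ 2 + e 1 ^ 2 = 1) (p : E2) : ∃ u, fr o e u = p := by
  refine ⟨((p 0 - o 0) * e 0 + (p 1 - o 1) * e 1, -(p 0 - o 0) * e 1 + (p 1 - o 1) * e 0), ?_⟩
  ext i
  fin_cases i
  · change fr o e _ 0 = p 0
    rw [fr_zero]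
    simp only
    linear_combination (p 0 - o 0) * he
  · change fr o e _ 1 = p 1
    rw [fr_one]
    simp only
    linear_combination (p 1 - o 1) * he

theorem fr_rat {o e : E2} (he : e 0 ^ 2 + e 1 ^ 2 = 1) {X : Set (ℝ × ℝ)} (hX : Rat2 X) :
    ∀ x ∈ fr o e '' X, ∀ y ∈ fr o e '' X, dist x y ∈ Set.range ((↑) : ℚ → ℝ) := by
  rintro _ ⟨u, hu, rfl⟩ _ ⟨w, hw, rfl⟩
  obtain ⟨ρ, hρ⟩ := hX u hu w hw
  rw [fr_dist he, hρ, Real.sqrt_sq_eq_abs]
  exact ⟨|ρ|, by push_cast; rfl⟩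

/-- A line through `o` with unit direction `e`. -/
theorem line_frame (L : AffineSubspace ℝ E2) [Nonempty L]
    (hL : Module.finrank ℝ L.direction = 1) :
    ∃ o e : E2, e 0 ^ 2 + e 1 ^ 2 = 1 ∧ (∀ z ∈ L, ∃ t : ℝ, z = fr o e (t, 0)) ∧
      ∀ u : ℝ × ℝ, EuclideanGeometry.reflection L (fr o e u) = fr o e (u.1, -u.2) := by
  obtain ⟨⟨o, ho⟩⟩ := (inferInstance : Nonempty L)
  obtain ⟨v, hv0, hv⟩ := finrank_eq_one_iff'.1 hL
  have hv0' : (v : E2) ≠ 0 := fun h => hv0 (Subtype.ext h)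
  have hn : ‖(v : E2)‖ ≠ 0 := norm_ne_zero_iff.2 hv0'
  set e : E2 := (‖(v : E2)‖)⁻¹ • (v : E2) with he
  have heD : e ∈ L.direction := L.direction.smul_mem _ v.2
  have he1 : ‖e‖ = 1 := by
    rw [he, norm_smul, norm_inv, norm_norm, inv_mul_cancel₀ hn]
  have he2 : e 0 ^ 2 + e 1 ^ 2 = 1 := by
    have := EuclideanSpace.norm_sq_eq e
    rw [Fin.sum_univ_two, he1] at this
    simp only [Real.norm_eq_abs, sq_abs] at this
    linarith
  have hspan : ∀ w ∈ L.direction, ∃ t : ℝ, w = t • e := by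
    intro w hw
    obtain ⟨c, hc⟩ := hv ⟨w, hw⟩
    refine ⟨c * ‖(v : E2)‖, ?_⟩
    rw [he, smul_smul, mul_assoc, mul_inv_cancel₀ hn, mul_one]
    have := congrArg Subtype.val hc
    simpa using this.symm
  refine ⟨o, e, he2, ?_, ?_⟩
  · intro z hz
    have h1 : z -ᵥ o ∈ L.direction := AffineSubspace.vsub_mem_direction hz ho
    obtain ⟨t, ht⟩ := hspan _ h1
    refine ⟨t, ?_⟩
    have h2 : z = o + t • e := by
      rw [← ht]
      simp
    rw [h2]
    ext i
    fin_cases i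
    · change o 0 + t * e 0 = fr o e _ 0
      rw [fr_zero]
      simp
    · change o 1 + t * e 1 = fr o e _ 1
      rw [fr_one]
      simp
  · intro u
    set f : E2 := !₂[-e 1, e 0] with hf
    have hfo : u.2 • f ∈ L.directionᗮ := by
      apply Submodule.smul_mem
      rw [Submodule.mem_orthogonal]
      intro w hw
      obtain ⟨t, rfl⟩ := hspan w hw
      rw [inner_smul_left]
      have : inner ℝ e f = 0 := by
        rw [PiLp.inner_apply, Fin.sum_univ_two]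
        simp [hf]
        ring
      rw [this, mul_zero]
    have hp : u.1 • e +ᵥ o ∈ L := AffineSubspace.vadd_mem_of_mem_direction
      (L.direction.smul_mem _ heD) ho
    have h1 : fr o e u = (u.2 • f) +ᵥ (u.1 • e +ᵥ o) := by
      ext i
      fin_cases i
      · change fr o e u 0 = u.2 * (-e 1) + (u.1 * e 0 + o 0)
        rw [fr_zero]
        ring
      · change fr o e u 1 = u.2 * (e 0) + (u.1 * e 1 + o 1)
        rw [fr_one]
        ring
    have h2 : fr o e (u.1, -u.2) = -(u.2 • f) +ᵥ (u.1 • e +ᵥ o) := by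
      ext i
      fin_cases i
      · change fr o e _ 0 = -(u.2 * (-e 1)) + (u.1 * e 0 + o 0)
        rw [fr_zero]
        ring
      · change fr o e _ 1 = -(u.2 * (e 0)) + (u.1 * e 1 + o 1)
        rw [fr_one]
        ring
    rw [h1, h2]
    exact EuclideanGeometry.reflection_orthogonal_vadd hp hfo

/-- Theorem A. -/
theorem line_main (L : AffineSubspace ℝ E2) [Nonempty L]
    (hL : Module.finrank ℝ L.direction = 1) (p q : E2) (ε : ℝ) (hε : 0 < ε) :
    ∃ X : Set E2, (∀ x ∈ X, ∀ y ∈ X, dist x y ∈ Set.range ((↑) : ℚ → ℝ)) ∧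
      ∀ z ∈ (L : Set E2) ∪ {p, q, EuclideanGeometry.reflection L p,
        EuclideanGeometry.reflection L q}, (X ∩ Metric.ball z ε).Nonempty := by
  obtain ⟨o, e, he, hline, hrefl⟩ := line_frame L hL
  obtain ⟨u, rfl⟩ := fr_surj (o := o) he p
  obtain ⟨w, rfl⟩ := fr_surj (o := o) he q
  obtain ⟨X, hX, h1, ⟨u', hu1, hu2, hu3⟩, ⟨w', hw1, hw2, hw3⟩⟩ :=
    line_conf u.1 u.2 w.1 w.2 hε
  have hneg : ∀ a b : ℝ, |-a - -b| = |a - b| := by
    intro a b
    rw [← abs_neg]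
    congr 1
    ring
  refine ⟨fr o e '' X, fr_rat he hX, ?_⟩
  rintro z (hz | hz | hz | hz | hz)
  · obtain ⟨t, rfl⟩ := hline z hz
    obtain ⟨t', ht, ht'⟩ := h1 t
    refine ⟨fr o e (t', 0), ⟨_, ht', rfl⟩, ?_⟩
    rw [Metric.mem_ball]
    refine lt_of_le_of_lt (fr_dist_le he _ _) ?_
    simpa using ht
  · rw [hz]
    exact ⟨fr o e u', ⟨_, hu2, rfl⟩, lt_of_le_of_lt (fr_dist_le he _ _) hu1⟩
  · rw [hz]
    exact ⟨fr o e w', ⟨_, hw2, rfl⟩, lt_of_le_of_lt (fr_dist_le he _ _) hw1⟩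
  · rw [hz, hrefl]
    refine ⟨fr o e (u'.1, -u'.2), ⟨_, hu3, rfl⟩, lt_of_le_of_lt (fr_dist_le he _ _) ?_⟩
    simp only
    rw [hneg]
    exact hu1
  · rw [Set.mem_singleton_iff.1 hz, hrefl]
    refine ⟨fr o e (w'.1, -w'.2), ⟨_, hw3, rfl⟩, lt_of_le_of_lt (fr_dist_le he _ _) ?_⟩
    simp only
    rw [hneg]
    exact hw1

end RatApx

end
end

section

/-!
# D4 : Theorem A in the form of the hand-in
-/

noncomputable section

namespace RatApx

theorem unit_dir {v : E2} (hv : v ≠ 0) : ∃ (n : ℝ) (e : E2), n ≠ 0 ∧ v = n • e ∧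
    e 0 ^ 2 + e 1 ^ 2 = 1 := by
  have hn : ‖v‖ ≠ 0 := norm_ne_zero_iff.2 hv
  refine ⟨‖v‖, (‖v‖)⁻¹ • v, hn, ?_, ?_⟩
  · rw [smul_smul, mul_inv_cancel₀ hn, one_smul]
  · have he1 : ‖(‖v‖)⁻¹ • v‖ = 1 := by
      rw [norm_smul, norm_inv, norm_norm, inv_mul_cancel₀ hn]
    have := EuclideanSpace.norm_sq_eq ((‖v‖)⁻¹ • v)
    rw [Fin.sum_univ_two, he1] at this
    simp only [Real.norm_eq_abs, sq_abs] at this
    linarith

theorem mirror_fr {o e : E2} (he : e 0 ^ 2 + e 1 ^ 2 = 1) {n : ℝ} (hn : n ≠ 0) (u : ℝ × ℝ) :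
    mirror o (n • e) (fr o e u) = fr o e (u.1, -u.2) := by
  have h1 : inner ℝ (n • e) (fr o e u - o) = n * u.1 := by
    rw [PiLp.inner_apply, Fin.sum_univ_two]
    change (fr o e u 0 - o 0) * (n * e 0) + (fr o e u 1 - o 1) * (n * e 1) = n * u.1
    rw [fr_zero, fr_one]
    linear_combination (n * u.1) * he
  have h2 : inner ℝ (n • e) (n • e) = n ^ 2 := by
    rw [PiLp.inner_apply, Fin.sum_univ_two]
    change (n * e 0) * (n * e 0) + (n * e 1) * (n * e 1) = n ^ 2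
    linear_combination n ^ 2 * he
  have h3 : n * u.1 / n ^ 2 * n = u.1 := by
    field_simp
  unfold mirror
  rw [h1, h2]
  ext i
  fin_cases i
  · change 2 * (o 0 + n * u.1 / n ^ 2 * (n * e 0)) - fr o e u 0 = fr o e (u.1, -u.2) 0
    rw [fr_zero, fr_zero]
    simp only
    linear_combination 2 * e 0 * h3
  · change 2 * (o 1 + n * u.1 / n ^ 2 * (n * e 1)) - fr o e u 1 = fr o e (u.1, -u.2) 1
    rw [fr_one, fr_one]
    simp only
    linear_combination 2 * e 1 * h3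

theorem line_mem_fr {o e : E2} {n t : ℝ} : o + t • n • e = fr o e (t * n, 0) := by
  ext i
  fin_cases i
  · change o 0 + t * (n * e 0) = fr o e _ 0
    rw [fr_zero]
    simp only
    ring
  · change o 1 + t * (n * e 1) = fr o e _ 1
    rw [fr_one]
    simp only
    ring

/-- Theorem A. -/
theorem line_final (o v p q : E2) (hv : v ≠ 0) :
    RatApprox (lineSet o v ∪ {p, q, mirror o v p, mirror o v q}) := by
  intro ε hε
  obtain ⟨n, e, hn, rfl, he⟩ := unit_dir hv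
  obtain ⟨u, rfl⟩ := fr_surj (o := o) he p
  obtain ⟨w, rfl⟩ := fr_surj (o := o) he q
  obtain ⟨X, hX, h1, ⟨u', hu1, hu2, hu3⟩, ⟨w', hw1, hw2, hw3⟩⟩ :=
    line_conf u.1 u.2 w.1 w.2 hε
  have hneg : ∀ a b : ℝ, |-a - -b| = |a - b| := by
    intro a b
    rw [← abs_neg]
    congr 1
    ring
  refine ⟨fr o e '' X, ?_, ?_⟩
  · intro x hx y hy
    obtain ⟨r, hr⟩ := fr_rat he hX x hx y hy
    exact ⟨r, hr.symm⟩
  rintro z (⟨t, hz⟩ | hz | hz | hz | hz)
  · rw [hz, line_mem_fr]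
    obtain ⟨t', ht, ht'⟩ := h1 (t * n)
    refine ⟨fr o e (t', 0), ⟨_, ht', rfl⟩, ?_⟩
    rw [dist_comm]
    refine lt_of_le_of_lt (fr_dist_le he _ _) ?_
    simpa using ht
  · rw [hz]
    refine ⟨fr o e u', ⟨_, hu2, rfl⟩, ?_⟩
    rw [dist_comm]
    exact lt_of_le_of_lt (fr_dist_le he _ _) hu1
  · rw [hz]
    refine ⟨fr o e w', ⟨_, hw2, rfl⟩, ?_⟩
    rw [dist_comm]
    exact lt_of_le_of_lt (fr_dist_le he _ _) hw1
  · rw [hz, mirror_fr he hn]
    refine ⟨fr o e (u'.1, -u'.2), ⟨_, hu3, rfl⟩, ?_⟩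
    rw [dist_comm]
    refine lt_of_le_of_lt (fr_dist_le he _ _) ?_
    simp only
    rw [hneg]
    exact hu1
  · rw [Set.mem_singleton_iff.1 hz, mirror_fr he hn]
    refine ⟨fr o e (w'.1, -w'.2), ⟨_, hw3, rfl⟩, ?_⟩
    rw [dist_comm]
    refine lt_of_le_of_lt (fr_dist_le he _ _) ?_
    simp only
    rw [hneg]
    exact hw1

end RatApx

end
end
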