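import Pool.Agent.Lib.MP_431f31_co.Stmt

/-!
# The notions used in the statement about circles
-/

set_option autoImplicit false

noncomputable section

namespace RatApx

/-- The circle with centre `c` and radius `R`. -/
def circleSet (c : EuclideanSpace ℝ (Fin 2)) (R : ℝ) : Set (EuclideanSpace ℝ (Fin 2)) :=
  {z | dist z c = R}

/-- The inverse point of `q` with respect to the circle with centre `c` and radius `R`: the point on
the ray from `c` through `q` at distance `R ^ 2 / dist q c` from `c`. -/
def invPoint (c : EuclideanSpace ℝ (Fin 2)) (R : ℝ) (q : EuclideanSpace ℝ (Fin 2)) :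
    EuclideanSpace ℝ (Fin 2) :=
  c + (R ^ 2 / dist q c ^ 2) • (q - c)

end RatApx

end
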