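import Pool.Agent.Lib.MP_431f31_co.D4
import Pool.Agent.Lib.MP_431f31_co.Stmt2

section

/-!
# E1 : circle plus three points, the rational configuration

`a = 2 α`, `b = 2 β`, `y₊² = 1 + (a + b)²`, `y₋² = 1 + (a - b)²`, `K = y₊ / y₋`.
In the coordinates of the inverted picture (centre `0`, radius 1):
`W x = (2 a x, x² - a²)/(x² + a²)`, `Z₊ = (2 a, 1 + b² - a²)/y₋²`, `Z₋ = (2 a, 1 + b² - a²)/y₊²`.
-/

noncomputable section

namespace RatApx

/-- points of the circle -/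
def Wp (a x : ℚ) : ℚ × ℚ := (2 * a * x / (x ^ 2 + a ^ 2), (x ^ 2 - a ^ 2) / (x ^ 2 + a ^ 2))

/-- the point `(2 a, 1 + b² - a²) / c` -/
def Zp (a b c : ℚ) : ℚ × ℚ := (2 * a / c, (1 + b ^ 2 - a ^ 2) / c)

/-- the configuration -/
def CC (a b : ℚ) : Set (ℚ × ℚ) :=
  {u | u = (0, 0) ∨ (∃ x, Good a b x ∧ u = Wp a x) ∨ u = Zp a b (1 + (a - b) ^ 2) ∨
    u = Zp a b (1 + (a + b) ^ 2)}

/-- squared distance -/
def sd (u w : ℚ × ℚ) : ℚ := (u.1 - w.1) ^ 2 + (u.2 - w.2) ^ 2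

theorem sd_comm (u w : ℚ × ℚ) : sd u w = sd w u := by
  unfold sd
  ring

theorem sd_self (u : ℚ × ℚ) : sd u u = 0 := by
  unfold sd
  ring

theorem key_id (a b : ℚ) : (1 + (a - b) ^ 2) * (1 + (a + b) ^ 2) =
    (2 * a) ^ 2 + (1 + b ^ 2 - a ^ 2) ^ 2 := by ring

theorem CC_rat {a b : ℚ} (ha : a ≠ 0) (h1 : ∃ r : ℚ, 1 + (a + b) ^ 2 = r ^ 2)
    (h2 : ∃ r : ℚ, 1 + (a - b) ^ 2 = r ^ 2) :
    ∀ u ∈ CC a b, ∀ w ∈ CC a b, ∃ ρ : ℚ, sd u w = ρ ^ 2 := by
  obtain ⟨r1, h1⟩ := h1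
  obtain ⟨r2, h2⟩ := h2
  have p1 : (1 + (a + b) ^ 2) ≠ 0 := by positivity
  have p2 : (1 + (a - b) ^ 2) ≠ 0 := by positivity
  have q1 : r1 ≠ 0 := by
    rintro rfl
    apply p1
    rw [h1]
    ring
  have q2 : r2 ≠ 0 := by
    rintro rfl
    apply p2
    rw [h2]
    ring
  have hx0 : ∀ x : ℚ, x ^ 2 + a ^ 2 ≠ 0 := fun x => by positivity
  -- the pairs
  have s1 : ∀ x, sd (0, 0) (Wp a x) = 1 ^ 2 := by
    intro x
    have := hx0 x
    unfold sd Wp
    simp only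
    field_simp
    ring
  have s2 : sd (0, 0) (Zp a b (1 + (a - b) ^ 2)) = (r1 / r2) ^ 2 := by
    rw [div_pow, ← h1, ← h2]
    unfold sd Zp
    simp only
    field_simp
    ring
  have s3 : sd (0, 0) (Zp a b (1 + (a + b) ^ 2)) = (r2 / r1) ^ 2 := by
    rw [div_pow, ← h1, ← h2]
    unfold sd Zp
    simp only
    field_simp
    ring
  have s4 : ∀ x x' : ℚ, Good a b x → Good a b x' → ∃ ρ : ℚ, sd (Wp a x) (Wp a x') = ρ ^ 2 := by
    rintro x x' ⟨⟨y, hy⟩, -⟩ ⟨⟨y', hy'⟩, -⟩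
    have g1 := hx0 x
    have g2 := hx0 x'
    refine ⟨2 * a * (x - x') / (y * y'), ?_⟩
    rw [div_pow, mul_pow, mul_pow y, ← hy, ← hy']
    unfold sd Wp
    simp only
    field_simp
    ring
  have s5 : ∀ x : ℚ, Good a b x → ∃ ρ : ℚ, sd (Wp a x) (Zp a b (1 + (a - b) ^ 2)) = ρ ^ 2 := by
    rintro x ⟨⟨y, hy⟩, ⟨z, hz⟩⟩
    have g1 := hx0 x
    refine ⟨2 * a * z / (y * r2), ?_⟩
    rw [div_pow, mul_pow, mul_pow y, ← hy, ← hz, ← h2]
    unfold sd Wp Zp
    simp only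
    field_simp
    ring
  have s6 : ∀ x : ℚ, Good a b x → ∃ ρ : ℚ, sd (Wp a x) (Zp a b (1 + (a + b) ^ 2)) = ρ ^ 2 := by
    rintro x ⟨⟨y, hy⟩, ⟨z, hz⟩⟩
    have g1 := hx0 x
    refine ⟨2 * a * z / (y * r1), ?_⟩
    rw [div_pow, mul_pow, mul_pow y, ← hy, ← hz, ← h1]
    unfold sd Wp Zp
    simp only
    field_simp
    ring
  have s7 : sd (Zp a b (1 + (a - b) ^ 2)) (Zp a b (1 + (a + b) ^ 2)) =
      (4 * a * b / (r1 * r2)) ^ 2 := by
    rw [div_pow, mul_pow r1, ← h1, ← h2]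
    unfold sd Zp
    simp only
    field_simp
    ring
  intro u hu w hw
  rcases hu with rfl | ⟨x, hx, rfl⟩ | rfl | rfl
  · rcases hw with rfl | ⟨x', hx', rfl⟩ | rfl | rfl
    · exact ⟨0, by rw [sd_self]; ring⟩
    · exact ⟨_, s1 x'⟩
    · exact ⟨_, s2⟩
    · exact ⟨_, s3⟩
  · rcases hw with rfl | ⟨x', hx', rfl⟩ | rfl | rfl
    · rw [sd_comm]
      exact ⟨_, s1 x⟩
    · exact s4 x x' hx hx'
    · exact s5 x hx
    · exact s6 x hx
  · rcases hw with rfl | ⟨x', hx', rfl⟩ | rfl | rfl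
    · rw [sd_comm]
      exact ⟨_, s2⟩
    · rw [sd_comm]
      exact s5 x' hx'
    · exact ⟨0, by rw [sd_self]; ring⟩
    · exact ⟨_, s7⟩
  · rcases hw with rfl | ⟨x', hx', rfl⟩ | rfl | rfl
    · rw [sd_comm]
      exact ⟨_, s3⟩
    · rw [sd_comm]
      exact s6 x' hx'
    · rw [sd_comm]
      exact ⟨_, s7⟩
    · exact ⟨0, by rw [sd_self]; ring⟩

end RatApx

end
end

section

/-!
# E2 : circle plus three points, approximation
-/

noncomputable section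

namespace RatApx

open Filter Topology

theorem params_K {κ : ℝ} (hκ : 1 ≤ κ) {δ : ℝ} (hδ : 0 < δ) :
    ∃ (α β r1 r2 : ℚ), Od α ∧ Od β ∧ 0 < β ∧ β < α ∧ 0 < r1 ∧ 0 < r2 ∧
      1 + (2 * α + 2 * β) ^ 2 = r1 ^ 2 ∧ 1 + (2 * α - 2 * β) ^ 2 = r2 ^ 2 ∧
      |(r1 : ℝ) / r2 - κ| < δ := by
  set κ' : ℝ := κ + δ / 2 with hκ'
  have hκ1 : 1 < κ' := by linarith
  set g : ℝ := Real.sqrt (2 * κ' ^ 2 - 1) with hg
  have hg2 : g ^ 2 = 2 * κ' ^ 2 - 1 := Real.sq_sqrt (by nlinarith)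
  have hg1 : 1 < g := by
    apply Real.lt_sqrt_of_sq_lt
    nlinarith
  have hcont : Continuous (fun u : ℝ × ℝ => Real.sqrt (1 + u.1 ^ 2) / Real.sqrt (1 + u.2 ^ 2)) := by
    apply Continuous.div
    · fun_prop
    · fun_prop
    · intro u
      have : 0 < Real.sqrt (1 + u.2 ^ 2) := Real.sqrt_pos.2 (by positivity)
      exact this.ne'
  have hval : Real.sqrt (1 + g ^ 2) / Real.sqrt (1 + (1 : ℝ) ^ 2) = κ' := by
    rw [hg2, ← Real.sqrt_div (by nlinarith)]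
    have : (1 + (2 * κ' ^ 2 - 1)) / (1 + (1 : ℝ) ^ 2) = κ' ^ 2 := by ring
    rw [this, Real.sqrt_sq (by linarith)]
  obtain ⟨η, hη, hη2⟩ := Metric.continuousAt_iff.1 (hcont.continuousAt (x := (g, 1))) (δ / 2)
    (by linarith)
  obtain ⟨α, β, hα, hβ, h0, hab, c1, c2, ⟨r1, hr1⟩, ⟨r2, hr2⟩⟩ := params (g := g) (h := 1)
    one_pos hg1 hη
  have hr1' : r1 ≠ 0 := by
    rintro rfl
    have : 0 < 1 + (2 * α + 2 * β) ^ 2 := by positivity
    rw [hr1] at this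
    norm_num at this
  have hr2' : r2 ≠ 0 := by
    rintro rfl
    have : 0 < 1 + (2 * α - 2 * β) ^ 2 := by positivity
    rw [hr2] at this
    norm_num at this
  refine ⟨α, β, |r1|, |r2|, hα, hβ, h0, hab, abs_pos.2 hr1', abs_pos.2 hr2', by rw [sq_abs, hr1],
    by rw [sq_abs, hr2], ?_⟩
  have h3 := hη2 (x := (2 * α + 2 * β, 2 * α - 2 * β)) (by
    rw [Prod.dist_eq]
    exact max_lt c1 c2)
  rw [Real.dist_eq] at h3
  simp only at h3
  rw [hval] at h3
  have e1 : Real.sqrt (1 + (2 * (α : ℝ) + 2 * β) ^ 2) = |(r1 : ℝ)| := by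
    have : 1 + (2 * (α : ℝ) + 2 * β) ^ 2 = (r1 : ℝ) ^ 2 := by exact_mod_cast hr1
    rw [this, Real.sqrt_sq_eq_abs]
  have e2 : Real.sqrt (1 + (2 * (α : ℝ) - 2 * β) ^ 2) = |(r2 : ℝ)| := by
    have : 1 + (2 * (α : ℝ) - 2 * β) ^ 2 = (r2 : ℝ) ^ 2 := by exact_mod_cast hr2
    rw [this, Real.sqrt_sq_eq_abs]
  rw [e1, e2] at h3
  push_cast
  rw [abs_lt] at h3 ⊢
  constructor <;> linarith

/-- the circle points are dense -/
theorem circ_dense {α β : ℚ} (hα : Od α) (hβ : Od β) (h0 : 0 < β) (hab : β < α) {c s : ℝ}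
    (hcs : c ^ 2 + s ^ 2 = 1) {η : ℝ} (hη : 0 < η) :
    ∃ x : ℚ, Good (2 * α) (2 * β) x ∧ |((Wp (2 * α) x).1 : ℝ) - c| < η ∧
      |((Wp (2 * α) x).2 : ℝ) - s| < η := by
  have hα0 : (0 : ℝ) < 2 * α := by
    have : 0 < α := h0.trans hab
    have : (0 : ℝ) < α := by exact_mod_cast this
    linarith
  set a : ℝ := 2 * α with ha
  have hW1 : ∀ x : ℚ, ((Wp (2 * α) x).1 : ℝ) = 2 * a * x / (x ^ 2 + a ^ 2) := by
    intro x
    simp only [Wp, ha]
    push_cast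
    ring
  have hW2 : ∀ x : ℚ, ((Wp (2 * α) x).2 : ℝ) = (x ^ 2 - a ^ 2) / (x ^ 2 + a ^ 2) := by
    intro x
    simp only [Wp, ha]
    push_cast
    ring
  simp only [hW1, hW2]
  by_cases hs : s = 1
  · have hc : c = 0 := by
      rw [hs] at hcs
      nlinarith
    subst hs
    subst hc
    set X0 : ℝ := (2 * a + 2 * a ^ 2) / η + 1 with hX0
    have hX1 : 1 < X0 := by
      have : 0 < (2 * a + 2 * a ^ 2) / η := by positivity
      linarith
    obtain ⟨x, hx, hx2⟩ := good_dense hα hβ h0 hab (X0 + 1) 1 one_pos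
    have hx3 := (abs_lt.1 hx2).1
    have hxX : X0 < x := by linarith
    have hx1 : (1 : ℝ) < x := by linarith
    have hηx : 2 * a + 2 * a ^ 2 < η * x := by
      have : (2 * a + 2 * a ^ 2) / η < x := by linarith
      rw [div_lt_iff₀ hη] at this
      linarith
    have hpos : 0 < (x : ℝ) ^ 2 + a ^ 2 := by positivity
    refine ⟨x, hx, ?_, ?_⟩
    · rw [sub_zero, abs_of_pos (by positivity), div_lt_iff₀ hpos]
      have h3 : 2 * a * (x : ℝ) < η * x * x := by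
        have : 2 * a < η * x := by nlinarith
        exact mul_lt_mul_of_pos_right this (by linarith)
      nlinarith [mul_pos hη (pow_pos hα0 2)]
    · have h4 : ((x : ℝ) ^ 2 - a ^ 2) / (x ^ 2 + a ^ 2) - 1 = -(2 * a ^ 2 / (x ^ 2 + a ^ 2)) := by
        field_simp
        ring
      rw [h4, abs_neg, abs_of_pos (by positivity), div_lt_iff₀ hpos]
      have h5 : 2 * a ^ 2 < η * x := by nlinarith
      have h6 : η * (x : ℝ) ≤ η * x ^ 2 := by
        apply mul_le_mul_of_nonneg_left _ hη.le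
        nlinarith
      nlinarith [mul_pos hη (pow_pos hα0 2)]
  · have h1s : 1 - s ≠ 0 := fun h => hs (by linarith)
    set x0 : ℝ := a * c / (1 - s) with hx0
    have hc1 : Continuous (fun x : ℝ => 2 * a * x / (x ^ 2 + a ^ 2)) := by
      apply Continuous.div (by fun_prop) (by fun_prop)
      intro x
      positivity
    have hc2 : Continuous (fun x : ℝ => (x ^ 2 - a ^ 2) / (x ^ 2 + a ^ 2)) := by
      apply Continuous.div (by fun_prop) (by fun_prop)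
      intro x
      positivity
    have hx2 : x0 ^ 2 = a ^ 2 * (1 + s) / (1 - s) := by
      rw [hx0, div_pow, div_eq_div_iff (pow_ne_zero 2 h1s) h1s]
      have : c ^ 2 = (1 - s) * (1 + s) := by linarith
      rw [mul_pow, this]
      ring
    have hD : x0 ^ 2 + a ^ 2 = 2 * a ^ 2 / (1 - s) := by
      rw [hx2]
      field_simp
      ring
    have v1 : 2 * a * x0 / (x0 ^ 2 + a ^ 2) = c := by
      rw [hD, hx0]
      field_simp
    have v2 : (x0 ^ 2 - a ^ 2) / (x0 ^ 2 + a ^ 2) = s := by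
      rw [hD, hx2]
      field_simp
      ring
    obtain ⟨η1, hη1, h1⟩ := Metric.continuousAt_iff.1 (hc1.continuousAt (x := x0)) η hη
    obtain ⟨η2, hη2, h2⟩ := Metric.continuousAt_iff.1 (hc2.continuousAt (x := x0)) η hη
    obtain ⟨x, hx, hx3⟩ := good_dense hα hβ h0 hab x0 (min η1 η2) (lt_min hη1 hη2)
    refine ⟨x, hx, ?_, ?_⟩
    · have := h1 (x := (x : ℝ)) (by
        rw [Real.dist_eq]
        exact hx3.trans_le (min_le_left _ _))
      rw [Real.dist_eq, v1] at this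
      exact this
    · have := h2 (x := (x : ℝ)) (by
        rw [Real.dist_eq]
        exact hx3.trans_le (min_le_right _ _))
      rw [Real.dist_eq, v2] at this
      exact this

/-- the conclusion for the circle -/
def CircConf (R ρ ε : ℝ) : Prop :=
  ∃ X : Set (ℝ × ℝ), Rat2 X ∧ ((0, 0) : ℝ × ℝ) ∈ X ∧
    (∀ w : ℝ × ℝ, w.1 ^ 2 + w.2 ^ 2 = R ^ 2 → ∃ u ∈ X, |u.1 - w.1| + |u.2 - w.2| < ε) ∧
    (∃ u ∈ X, |u.1 - ρ| + |u.2 - 0| < ε) ∧ ∃ u ∈ X, |u.1 - R ^ 2 / ρ| + |u.2 - 0| < ε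

theorem circ_conf_ge {R ρ ε : ℝ} (hR : 0 < R) (hρ : R ≤ ρ) (hε : 0 < ε) : CircConf R ρ ε := by
  have hρ0 : 0 < ρ := hR.trans_le hρ
  have hκ : 1 ≤ ρ / R := by
    rw [le_div_iff₀ hR]
    linarith
  -- continuity of `(r, K) ↦ r K, r / K`
  have hf1 : ContinuousAt (fun u : ℝ × ℝ => u.1 * u.2) (R, ρ / R) := by fun_prop
  have hf2 : ContinuousAt (fun u : ℝ × ℝ => u.1 / u.2) (R, ρ / R) := by
    apply ContinuousAt.div continuousAt_fst continuousAt_snd
    have : 0 < ρ / R := by positivity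
    exact this.ne'
  obtain ⟨δ1, hδ1, h1⟩ := Metric.continuousAt_iff.1 hf1 ε hε
  obtain ⟨δ2, hδ2, h2⟩ := Metric.continuousAt_iff.1 hf2 ε hε
  set δ := min (min δ1 δ2) (min (ε / 8) R) with hδ
  have hδ0 : 0 < δ := lt_min (lt_min hδ1 hδ2) (lt_min (by linarith) hR)
  have d1 : δ ≤ δ1 := (min_le_left _ _).trans (min_le_left _ _)
  have d2 : δ ≤ δ2 := (min_le_left _ _).trans (min_le_right _ _)
  have d3 : δ ≤ ε / 8 := (min_le_right _ _).trans (min_le_left _ _)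
  obtain ⟨r, hr1, hr2⟩ := exists_rat_btwn (show R < R + δ by linarith)
  have hr0 : (0 : ℝ) < r := hR.trans hr1
  have hrR : |(r : ℝ) - R| < δ := by
    rw [abs_lt]
    constructor <;> linarith
  obtain ⟨α, β, y1, y2, hα, hβ, h0, hab, hy1, hy2, e1, e2, hK⟩ := params_K hκ hδ0
  have hy1' : (0 : ℝ) < y1 := by exact_mod_cast hy1
  have hy2' : (0 : ℝ) < y2 := by exact_mod_cast hy2
  have hα0 : 0 < α := h0.trans hab
  have hQ1 := h1 (x := ((r : ℝ), (y1 : ℝ) / y2)) (by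
    rw [Prod.dist_eq]
    exact max_lt (hrR.trans_le d1) (hK.trans_le d1))
  have hQ2 := h2 (x := ((r : ℝ), (y1 : ℝ) / y2)) (by
    rw [Prod.dist_eq]
    exact max_lt (hrR.trans_le d2) (hK.trans_le d2))
  rw [Real.dist_eq] at hQ1 hQ2
  simp only at hQ1 hQ2
  rw [mul_div_cancel₀ _ hR.ne'] at hQ1
  have hRR : R / (ρ / R) = R ^ 2 / ρ := by
    field_simp
  rw [hRR] at hQ2
  -- the unit vector
  set a : ℚ := 2 * α with ha
  set b : ℚ := 2 * β with hb
  have e1' : 1 + (a + b) ^ 2 = y1 ^ 2 := e1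
  have e2' : 1 + (a - b) ^ 2 = y2 ^ 2 := e2
  set n1 : ℝ := 2 * a / (y1 * y2) with hn1
  set n2 : ℝ := (1 + b ^ 2 - a ^ 2) / (y1 * y2) with hn2
  have hnn : n1 ^ 2 + n2 ^ 2 = 1 := by
    have h3 : ((y1 : ℝ) * y2) ^ 2 = (2 * (a : ℝ)) ^ 2 + (1 + (b : ℝ) ^ 2 - (a : ℝ) ^ 2) ^ 2 := by
      have h4 : (y1 * y2) ^ 2 = (2 * a) ^ 2 + (1 + b ^ 2 - a ^ 2) ^ 2 := by
        rw [mul_pow, ← e1', ← e2', ← key_id]
        ring
      exact_mod_cast h4
    rw [hn1, hn2, div_pow, div_pow, ← add_div, ← h3]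
    apply div_self
    positivity
  have hn1' : |n1| ≤ 1 := by
    rw [abs_le]
    constructor <;> nlinarith
  have hn2' : |n2| ≤ 1 := by
    rw [abs_le]
    constructor <;> nlinarith
  set Φ : ℚ × ℚ → ℝ × ℝ := fun u => (r * (u.1 * n1 + u.2 * n2), r * (-u.1 * n2 + u.2 * n1)) with hΦ
  have hZ1 : Φ (Zp a b (1 + (a - b) ^ 2)) = (r * ((y1 : ℝ) / y2), 0) := by
    have f1 : (((Zp a b (1 + (a - b) ^ 2)).1 : ℚ) : ℝ) = (y1 / y2) * n1 := by
      simp only [Zp]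
      rw [e2', hn1]
      push_cast
      field_simp
    have f2 : (((Zp a b (1 + (a - b) ^ 2)).2 : ℚ) : ℝ) = (y1 / y2) * n2 := by
      simp only [Zp]
      rw [e2', hn2]
      push_cast
      field_simp
    simp only [hΦ, f1, f2]
    ext
    · simp only
      linear_combination (r * ((y1 : ℝ) / y2)) * hnn
    · simp only
      ring
  have hZ2 : Φ (Zp a b (1 + (a + b) ^ 2)) = ((r : ℝ) / ((y1 : ℝ) / y2), 0) := by
    have f1 : (((Zp a b (1 + (a + b) ^ 2)).1 : ℚ) : ℝ) = (y2 / y1) * n1 := by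
      simp only [Zp]
      rw [e1', hn1]
      push_cast
      field_simp
    have f2 : (((Zp a b (1 + (a + b) ^ 2)).2 : ℚ) : ℝ) = (y2 / y1) * n2 := by
      simp only [Zp]
      rw [e1', hn2]
      push_cast
      field_simp
    have f3 : (r : ℝ) / ((y1 : ℝ) / y2) = r * (y2 / y1) := by field_simp
    rw [f3]
    simp only [hΦ, f1, f2]
    ext
    · simp only
      linear_combination (r * ((y2 : ℝ) / y1)) * hnn
    · simp only
      ring
  have hrat := CC_rat (a := a) (b := b) (by rw [ha]; positivity) ⟨y1, e1'⟩ ⟨y2, e2'⟩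
  refine ⟨Φ '' CC a b, ?_, ⟨(0, 0), Or.inl rfl, ?_⟩, ?_, ?_, ?_⟩
  · rintro _ ⟨u, hu, rfl⟩ _ ⟨w, hw, rfl⟩
    obtain ⟨σ, hσ⟩ := hrat u hu w hw
    refine ⟨r * σ, ?_⟩
    unfold sd at hσ
    have hσ' : ((u.1 : ℝ) - w.1) ^ 2 + ((u.2 : ℝ) - w.2) ^ 2 = (σ : ℝ) ^ 2 := by exact_mod_cast hσ
    simp only [hΦ]
    push_cast
    linear_combination (r : ℝ) ^ 2 * hσ' +
      (r : ℝ) ^ 2 * (((u.1 : ℝ) - w.1) ^ 2 + ((u.2 : ℝ) - w.2) ^ 2) * hnn
  · simp [hΦ]
  · rintro ⟨w1, w2⟩ hw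
    simp only at hw
    set c : ℝ := (w1 * n1 - w2 * n2) / R with hc
    set s : ℝ := (w1 * n2 + w2 * n1) / R with hs
    have hcs : c ^ 2 + s ^ 2 = 1 := by
      rw [hc, hs, div_pow, div_pow, ← add_div, div_eq_one_iff_eq (by positivity)]
      linear_combination hw + (w1 ^ 2 + w2 ^ 2) * hnn
    have g1 : R * (c * n1 + s * n2) = w1 := by
      rw [hc, hs]
      field_simp
      linear_combination w1 * hnn
    have g2 : R * (-c * n2 + s * n1) = w2 := by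
      rw [hc, hs]
      field_simp
      linear_combination w2 * hnn
    have hw1 : |c * n1 + s * n2| ≤ 1 := by
      rw [abs_le]
      constructor <;> nlinarith [sq_nonneg (c - n1), sq_nonneg (s - n2), sq_nonneg (c + n1),
        sq_nonneg (s + n2)]
    have hw2 : |-c * n2 + s * n1| ≤ 1 := by
      rw [abs_le]
      constructor <;> nlinarith [sq_nonneg (c - n2), sq_nonneg (s - n1), sq_nonneg (c + n2),
        sq_nonneg (s + n1)]
    obtain ⟨x, hx, k1, k2⟩ := circ_dense hα hβ h0 hab hcs (η := ε / (16 * r)) (by positivity)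
    refine ⟨Φ (Wp a x), ⟨_, Or.inr (Or.inl ⟨x, hx, rfl⟩), rfl⟩, ?_⟩
    simp only [hΦ]
    set u1 : ℝ := (((Wp a x).1 : ℚ) : ℝ) with hu1
    set u2 : ℝ := (((Wp a x).2 : ℚ) : ℝ) with hu2
    have hεr : (r : ℝ) * (ε / (16 * r)) = ε / 16 := by
      field_simp
    have hk1 : r * |u1 - c| < ε / 16 := by
      rw [← hεr]
      exact mul_lt_mul_of_pos_left k1 hr0
    have hk2 : r * |u2 - s| < ε / 16 := by
      rw [← hεr]
      exact mul_lt_mul_of_pos_left k2 hr0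
    have b1 : |r * (u1 * n1 + u2 * n2) - w1| ≤ r * |u1 - c| + r * |u2 - s| + |(r : ℝ) - R| := by
      have : r * (u1 * n1 + u2 * n2) - w1 = r * ((u1 - c) * n1) + r * ((u2 - s) * n2) +
          (r - R) * (c * n1 + s * n2) := by
        linear_combination g1
      rw [this]
      refine (abs_add_three _ _ _).trans ?_
      rw [abs_mul, abs_mul, abs_mul, abs_mul, abs_mul, abs_of_pos hr0]
      have i1 : |u1 - c| * |n1| ≤ |u1 - c| * 1 := mul_le_mul_of_nonneg_left hn1' (abs_nonneg _)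
      have i2 : |u2 - s| * |n2| ≤ |u2 - s| * 1 := mul_le_mul_of_nonneg_left hn2' (abs_nonneg _)
      have i3 : |(r : ℝ) - R| * |c * n1 + s * n2| ≤ |(r : ℝ) - R| * 1 :=
        mul_le_mul_of_nonneg_left hw1 (abs_nonneg _)
      have j1 := mul_le_mul_of_nonneg_left i1 hr0.le
      have j2 := mul_le_mul_of_nonneg_left i2 hr0.le
      linarith
    have b2 : |r * (-u1 * n2 + u2 * n1) - w2| ≤ r * |u1 - c| + r * |u2 - s| + |(r : ℝ) - R| := by
      have : r * (-u1 * n2 + u2 * n1) - w2 = r * ((u1 - c) * (-n2)) + r * ((u2 - s) * n1) +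
          (r - R) * (-c * n2 + s * n1) := by
        linear_combination g2
      rw [this]
      refine (abs_add_three _ _ _).trans ?_
      rw [abs_mul, abs_mul, abs_mul, abs_mul, abs_mul, abs_of_pos hr0, abs_neg]
      have i1 : |u1 - c| * |n2| ≤ |u1 - c| * 1 := mul_le_mul_of_nonneg_left hn2' (abs_nonneg _)
      have i2 : |u2 - s| * |n1| ≤ |u2 - s| * 1 := mul_le_mul_of_nonneg_left hn1' (abs_nonneg _)
      have i3 : |(r : ℝ) - R| * |-c * n2 + s * n1| ≤ |(r : ℝ) - R| * 1 :=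
        mul_le_mul_of_nonneg_left hw2 (abs_nonneg _)
      have j1 := mul_le_mul_of_nonneg_left i1 hr0.le
      have j2 := mul_le_mul_of_nonneg_left i2 hr0.le
      linarith
    have hrR' : |(r : ℝ) - R| < ε / 8 := hrR.trans_le d3
    linarith
  · refine ⟨_, ⟨_, Or.inr (Or.inr (Or.inl rfl)), rfl⟩, ?_⟩
    rw [hZ1]
    simpa using hQ1
  · refine ⟨_, ⟨_, Or.inr (Or.inr (Or.inr rfl)), rfl⟩, ?_⟩
    rw [hZ2]
    simpa using hQ2

theorem circ_conf {R ρ ε : ℝ} (hR : 0 < R) (hρ : 0 < ρ) (hε : 0 < ε) : CircConf R ρ ε := by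
  rcases le_total R ρ with h | h
  · exact circ_conf_ge hR h hε
  · have h1 : R ≤ R ^ 2 / ρ := by
      rw [le_div_iff₀ hρ]
      nlinarith
    obtain ⟨X, h2, h3, h4, h5, h6⟩ := circ_conf_ge hR h1 hε
    have h7 : R ^ 2 / (R ^ 2 / ρ) = ρ := by
      field_simp
    rw [h7] at h6
    exact ⟨X, h2, h3, h4, h6, h5⟩

end RatApx

end
end

section

/-!
# E3 : Theorem B in the form of the hand-in
-/

noncomputable section

namespace RatApx

theorem RatApprox.mono {P Q : Set E2} (h : RatApprox P) (hQ : Q ⊆ P) : RatApprox Q := by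
  intro ε hε
  obtain ⟨X, hX, h1⟩ := h ε hε
  exact ⟨X, hX, fun p hp => h1 p (hQ hp)⟩

theorem fr_zero_zero (o e : E2) : fr o e (0, 0) = o := by
  ext i
  fin_cases i
  · change fr o e (0, 0) 0 = o 0
    rw [fr_zero]
    simp
  · change fr o e (0, 0) 1 = o 1
    rw [fr_one]
    simp

theorem fr_add_smul {o e : E2} (t : ℝ) : o + t • e = fr o e (t, 0) := by
  ext i
  fin_cases i
  · change o 0 + t * (e 0) = fr o e _ 0
    rw [fr_zero]
    simp
  · change o 1 + t * (e 1) = fr o e _ 1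
    rw [fr_one]
    simp

/-- Theorem B for `q` different from the centre. -/
theorem circle_final (c q : E2) (R : ℝ) (hR : 0 < R) (hq : q ≠ c) :
    RatApprox (circleSet c R ∪ {c, q, invPoint c R q}) := by
  intro ε hε
  obtain ⟨n, e, hn, hqe, he⟩ := unit_dir (sub_ne_zero.2 hq)
  -- the distance
  have hdist : dist q c = |n| := by
    have h1 : q = fr c e (n, 0) := by
      rw [← fr_add_smul, ← hqe]
      simp
    have h2 : dist (fr c e (n, 0)) (fr c e (0, 0)) = |n| := by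
      rw [fr_dist he]
      simp only [sub_zero]
      rw [show n ^ 2 + 0 ^ 2 = n ^ 2 by ring, Real.sqrt_sq_eq_abs]
    rw [fr_zero_zero, ← h1] at h2
    exact h2
  -- a unit vector in the direction of `q - c`
  obtain ⟨e', he', hq'⟩ : ∃ e' : E2, e' 0 ^ 2 + e' 1 ^ 2 = 1 ∧ q - c = |n| • e' := by
    rcases le_total 0 n with h | h
    · exact ⟨e, he, by rw [abs_of_nonneg h]; exact hqe⟩
    · refine ⟨-e, ?_, ?_⟩
      · change (-(e 0)) ^ 2 + (-(e 1)) ^ 2 = 1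
        linear_combination he
      · rw [abs_of_nonpos h, hqe, smul_neg, neg_smul, neg_neg]
  have hρ : 0 < |n| := abs_pos.2 hn
  obtain ⟨X, hX, h0, h1, ⟨u, hu, hu2⟩, ⟨w, hw, hw2⟩⟩ := circ_conf hR hρ hε
  have hqfr : q = fr c e' (|n|, 0) := by
    rw [← fr_add_smul, ← hq']
    simp
  have hinv : invPoint c R q = fr c e' (R ^ 2 / |n|, 0) := by
    unfold invPoint
    rw [hdist, hq', smul_smul, ← fr_add_smul]
    congr 2
    field_simp
  refine ⟨fr c e' '' X, ?_, ?_⟩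
  · intro x hx y hy
    obtain ⟨r, hr⟩ := fr_rat he' hX x hx y hy
    exact ⟨r, hr.symm⟩
  rintro z (hz | hz | hz | hz)
  · obtain ⟨v, rfl⟩ := fr_surj (o := c) he' z
    have hz' : dist (fr c e' v) (fr c e' (0, 0)) = R := by
      rw [fr_zero_zero]
      exact hz
    rw [fr_dist he'] at hz'
    simp only [sub_zero] at hz'
    have hv : v.1 ^ 2 + v.2 ^ 2 = R ^ 2 := by
      rw [← hz']
      exact (Real.sq_sqrt (by positivity)).symm
    obtain ⟨v', hv', hv2⟩ := h1 v hv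
    refine ⟨fr c e' v', ⟨_, hv', rfl⟩, ?_⟩
    rw [dist_comm]
    exact lt_of_le_of_lt (fr_dist_le he' _ _) hv2
  · rw [hz]
    refine ⟨fr c e' (0, 0), ⟨_, h0, rfl⟩, ?_⟩
    rw [fr_zero_zero, dist_self]
    exact hε
  · rw [hz, hqfr]
    refine ⟨fr c e' u, ⟨_, hu, rfl⟩, ?_⟩
    rw [dist_comm]
    exact lt_of_le_of_lt (fr_dist_le he' _ _) hu2
  · rw [Set.mem_singleton_iff.1 hz, hinv]
    refine ⟨fr c e' w, ⟨_, hw, rfl⟩, ?_⟩
    rw [dist_comm]
    exact lt_of_le_of_lt (fr_dist_le he' _ _) hw2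

/-- Theorem B. -/
theorem circle_final' (c q : E2) (R : ℝ) (hR : 0 < R) :
    RatApprox (circleSet c R ∪ {c, q, invPoint c R q}) := by
  by_cases hq : q = c
  · subst hq
    obtain ⟨q', hq'⟩ : ∃ q' : E2, q' ≠ q := by
      refine ⟨q + !₂[1, 0], ?_⟩
      intro h
      have h1 : (!₂[1, 0] : E2) = 0 := by
        simpa using h
      have h2 := congrFun (congrArg (fun z : E2 => (fun i => z i)) h1) 0
      simp at h2
    refine (circle_final q q' R hR hq').mono ?_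
    rintro z (hz | hz | hz | hz)
    · exact Or.inl hz
    · exact Or.inr (Or.inl hz)
    · exact Or.inr (Or.inl hz)
    · refine Or.inr (Or.inl ?_)
      rw [Set.mem_singleton_iff.1 hz]
      unfold invPoint
      simp
  · exact circle_final c q R hR hq

end RatApx

end
end
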